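import Pool.Agent.W4h4.AS.Defs
import Pool.Agent.Y167.Red

/-!
# The algebra of endomorphisms of a polarised family
-/

set_option autoImplicit false

namespace Pool.Agent.W4h4.AS

open Finset
open Pool.Agent.Y167 (Sys int_adj exists_sys lattice_basis)

variable {V : Type*} [AddCommGroup V] [Module ℝ V]

/-- A polarised family with a basis of the lattice. -/
structure RPol (ω : V → V → ℝ) (Λ : AddSubgroup V) (𝒥 M : Set (Module.End ℝ V)) (d : ℕ)
    (b : Module.Basis (Fin d) ℝ V) : Prop where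
  frm : IsForm Λ 𝒥 M ω
  pos : IsPositive 𝒥 ω
  ne : 𝒥.Nonempty
  cpx : ∀ J ∈ 𝒥, ∀ x, J (J x) = -x
  mem : ∀ x, x ∈ Λ ↔ ∀ i, ∃ n : ℤ, b.repr x i = n

section form

variable {Λ : AddSubgroup V} {𝒥 M : Set (Module.End ℝ V)} {E : V → V → ℝ}

theorem IsForm.add_right (h : IsForm Λ 𝒥 M E) (x y z : V) : E x (y + z) = E x y + E x z := by
  rw [h.alt (y + z) x, h.add, h.alt x y, h.alt x z]
  ring

theorem IsForm.smul_right (h : IsForm Λ 𝒥 M E) (c : ℝ) (x y : V) : E x (c • y) = c * E x y := by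
  rw [h.alt (c • y) x, h.smul, h.alt x y]
  ring

theorem IsForm.zero_left (h : IsForm Λ 𝒥 M E) (y : V) : E 0 y = 0 := by
  have := h.smul 0 0 y
  rwa [zero_smul, zero_mul] at this

theorem IsForm.zero_right (h : IsForm Λ 𝒥 M E) (y : V) : E y 0 = 0 := by
  rw [h.alt, h.zero_left, neg_zero]

/-- The bilinear map. -/
def IsForm.toL (h : IsForm Λ 𝒥 M E) : V →ₗ[ℝ] V →ₗ[ℝ] ℝ :=
  LinearMap.mk₂ ℝ E h.add (fun c x y => by rw [h.smul, smul_eq_mul]) h.add_right
    (fun c x y => by rw [h.smul_right, smul_eq_mul])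

theorem IsForm.sub_left (h : IsForm Λ 𝒥 M E) (x y z : V) : E (x - y) z = E x z - E y z := by
  have h1 : h.toL (x - y) z = h.toL x z - h.toL y z := by rw [map_sub, LinearMap.sub_apply]
  exact h1

end form

namespace RPol

variable {ω : V → V → ℝ} {Λ : AddSubgroup V} {𝒥 M : Set (Module.End ℝ V)} {d : ℕ}
  {b : Module.Basis (Fin d) ℝ V}

theorem unit (P : RPol ω Λ 𝒥 M d b) {g : Module.End ℝ V} (hg : g ∈ 𝒥 ∪ M) (x y : V) :
    ω (g x) (g y) = ω x y := by
  rcases hg with h | h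
  · exact P.frm.type g h x y
  · exact P.frm.inv g h x y

theorem sym (P : RPol ω Λ 𝒥 M d b) {J : Module.End ℝ V} (hJ : J ∈ 𝒥) (x y : V) :
    ω x (J y) = ω y (J x) := by
  rw [← P.frm.type J hJ x (J y), P.cpx J hJ, P.frm.alt (-y) (J x)]
  have h1 := P.frm.smul (-1) y (J x)
  rw [neg_one_smul] at h1
  rw [h1]
  ring

theorem ext_left (P : RPol ω Λ 𝒥 M d b) {v v' : V} (hv : ∀ w, ω v w = ω v' w) : v = v' := by
  by_contra hne
  obtain ⟨J, hJ⟩ := P.ne
  have h1 := P.pos J hJ _ (sub_ne_zero.2 hne)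
  rw [P.frm.sub_left, hv, sub_self] at h1
  exact lt_irrefl _ h1

theorem ext_right (P : RPol ω Λ 𝒥 M d b) {v v' : V} (hv : ∀ w, ω w v = ω w v') : v = v' := by
  refine P.ext_left fun w => ?_
  rw [P.frm.alt w v, P.frm.alt w v', hv]

theorem surj (P : RPol ω Λ 𝒥 M d b) {g : Module.End ℝ V} (hg : g ∈ 𝒥 ∪ M) :
    Function.Surjective g := by
  have : FiniteDimensional ℝ V := Module.Basis.finiteDimensional_of_finite b
  rw [← LinearMap.injective_iff_surjective, injective_iff_map_eq_zero]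
  intro x hx
  refine P.ext_left fun w => ?_
  rw [← P.unit hg, hx, P.frm.zero_left, P.frm.zero_left]

/-- Linear functionals are represented by vectors. -/
theorem riesz (P : RPol ω Λ 𝒥 M d b) (ℓ : V →ₗ[ℝ] ℝ) : ∃ w, ∀ u, ℓ u = ω u w := by
  have hfd : FiniteDimensional ℝ V := Module.Basis.finiteDimensional_of_finite b
  let T : V →ₗ[ℝ] Module.Dual ℝ V := P.frm.toL.flip
  have hT : Function.Injective T := by
    intro x y hxy
    refine P.ext_right fun w => ?_
    exact LinearMap.congr_fun hxy w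
  have hs : Function.Surjective T :=
    (LinearMap.injective_iff_surjective_of_finrank_eq_finrank
      (Subspace.dual_finrank_eq (K := ℝ) (V := V)).symm).1 hT
  obtain ⟨w, hw⟩ := hs ℓ
  exact ⟨w, fun u => by rw [← hw]; rfl⟩

theorem exists_adj (P : RPol ω Λ 𝒥 M d b) (x : Module.End ℝ V) :
    ∃ y : Module.End ℝ V, ∀ u w, ω (x u) w = ω u (y w) := by
  have h1 : ∀ w, ∃ z, ∀ u, ω (x u) w = ω u z := fun w => by
    obtain ⟨z, hz⟩ := P.riesz ((P.frm.toL.flip w) ∘ₗ x)
    exact ⟨z, fun u => by rw [← hz]; rfl⟩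
  choose y hy using h1
  refine ⟨{ toFun := y
            map_add' := fun v w => ?_
            map_smul' := fun c w => ?_ }, fun u w => hy w u⟩
  · refine P.ext_right fun u => ?_
    rw [← hy, P.frm.add_right, P.frm.add_right, hy, hy]
  · refine P.ext_right fun u => ?_
    rw [← hy, P.frm.smul_right, RingHom.id_apply, P.frm.smul_right, hy]

/-- A form is represented by an operator. -/
theorem exists_op (P : RPol ω Λ 𝒥 M d b) {E : V → V → ℝ} (hE : IsForm Λ 𝒥 M E) :
    ∃ a : Module.End ℝ V, ∀ u w, E u w = ω u (a w) := by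
  have h1 : ∀ w, ∃ z, ∀ u, E u w = ω u z := fun w => P.riesz (hE.toL.flip w)
  choose y hy using h1
  refine ⟨{ toFun := y
            map_add' := fun v w => ?_
            map_smul' := fun c w => ?_ }, fun u w => hy w u⟩
  · refine P.ext_right fun u => ?_
    rw [← hy, hE.add_right, P.frm.add_right, hy, hy]
  · refine P.ext_right fun u => ?_
    rw [← hy, hE.smul_right, RingHom.id_apply, P.frm.smul_right, hy]

/-- The adjoint. -/
noncomputable def adj (P : RPol ω Λ 𝒥 M d b) (x : Module.End ℝ V) : Module.End ℝ V :=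
  (P.exists_adj x).choose

theorem adj_spec (P : RPol ω Λ 𝒥 M d b) (x : Module.End ℝ V) (u w : V) :
    ω (x u) w = ω u (P.adj x w) := (P.exists_adj x).choose_spec u w

theorem adj_spec' (P : RPol ω Λ 𝒥 M d b) (x : Module.End ℝ V) (u w : V) :
    ω u (x w) = ω (P.adj x u) w := by
  rw [P.frm.alt (x w) u, P.adj_spec, ← P.frm.alt]

theorem adj_unique (P : RPol ω Λ 𝒥 M d b) {x y : Module.End ℝ V}
    (hy : ∀ u w, ω (x u) w = ω u (y w)) : P.adj x = y := by
  ext w
  refine P.ext_right fun u => ?_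
  rw [← P.adj_spec, hy]

theorem adj_adj (P : RPol ω Λ 𝒥 M d b) (x : Module.End ℝ V) : P.adj (P.adj x) = x :=
  P.adj_unique fun u w => (P.adj_spec' x u w).symm

theorem adj_mul (P : RPol ω Λ 𝒥 M d b) (x y : Module.End ℝ V) :
    P.adj (x * y) = P.adj y * P.adj x :=
  P.adj_unique fun u w => by
    change ω (x (y u)) w = ω u (P.adj y (P.adj x w))
    rw [P.adj_spec x, P.adj_spec y]

theorem adj_add (P : RPol ω Λ 𝒥 M d b) (x y : Module.End ℝ V) :
    P.adj (x + y) = P.adj x + P.adj y :=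
  P.adj_unique fun u w => by
    rw [LinearMap.add_apply, LinearMap.add_apply, P.frm.add, P.frm.add_right, P.adj_spec,
      P.adj_spec]

theorem adj_smul (P : RPol ω Λ 𝒥 M d b) (c : ℝ) (x : Module.End ℝ V) :
    P.adj (c • x) = c • P.adj x :=
  P.adj_unique fun u w => by
    rw [LinearMap.smul_apply, LinearMap.smul_apply, P.frm.smul, P.frm.smul_right, P.adj_spec]

theorem b_mem (P : RPol ω Λ 𝒥 M d b) (i : Fin d) : b i ∈ Λ := by
  rw [P.mem]
  intro j
  rw [Module.Basis.repr_self]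
  by_cases hij : i = j
  · exact ⟨1, by rw [hij]; simp⟩
  · exact ⟨0, by rw [Finsupp.single_eq_of_ne (by exact fun h => hij h.symm)]; simp⟩

/-- The dual lattice has finite index. -/
theorem dual (P : RPol ω Λ 𝒥 M d b) : ∃ N : ℕ, 0 < N ∧ ∀ v : V,
    (∀ w ∈ Λ, ∃ n : ℤ, ω v w = n) → (N : ℝ) • v ∈ Λ := by
  have hsum : ∀ (v : V) (i : Fin d), ω v (b i) =
      ((Matrix.of fun i j => ω (b j) (b i)).mulVec (b.equivFun v)) i := by
    intro v i
    rw [Matrix.mulVec, dotProduct]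
    have h1 : ω v (b i) = P.frm.toL.flip (b i) v := rfl
    rw [h1]
    conv_lhs => rw [← b.sum_repr v, map_sum]
    refine Finset.sum_congr rfl fun j _ => ?_
    rw [map_smul, smul_eq_mul, mul_comm]
    rfl
  obtain ⟨N, hN, hNv⟩ := int_adj (Matrix.of fun i j => ω (b j) (b i))
    (fun i j => P.frm.int _ (P.b_mem j) _ (P.b_mem i)) (by
      intro v hv
      let x := b.equivFun.symm v
      have hxv : b.equivFun x = v := b.equivFun.apply_symm_apply v
      have h1 : ∀ i, ω x (b i) = 0 := by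
        intro i
        rw [hsum, hxv, hv]
        rfl
      have h2 : P.frm.toL x = 0 := b.ext fun i => h1 i
      have h3 : x = 0 := P.ext_left fun w => by
        rw [P.frm.zero_left]
        exact LinearMap.congr_fun h2 w
      rw [← hxv, h3, map_zero])
  refine ⟨N, hN, fun v hv => ?_⟩
  rw [P.mem]
  intro i
  obtain ⟨n, hn⟩ := hNv (b.equivFun v) (fun i => by
    rw [← hsum]
    exact hv _ (P.b_mem i)) i
  exact ⟨n, by rw [map_smul, Finsupp.smul_apply, smul_eq_mul]; exact hn⟩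

/-- The order: endomorphisms of the lattice which commute with `𝒥` and `M`. -/
def ord (_ : RPol ω Λ 𝒥 M d b) : Subring (Module.End ℝ V) where
  carrier := {x | (∀ g ∈ 𝒥 ∪ M, x * g = g * x) ∧ ∀ v ∈ Λ, x v ∈ Λ}
  mul_mem' := by
    rintro x y ⟨h1, h2⟩ ⟨h3, h4⟩
    refine ⟨fun g hg => ?_, fun v hv => h2 _ (h4 v hv)⟩
    rw [mul_assoc, h3 g hg, ← mul_assoc, h1 g hg, mul_assoc]
  one_mem' := ⟨fun g _ => by rw [one_mul, mul_one], fun v hv => hv⟩
  add_mem' := by
    rintro x y ⟨h1, h2⟩ ⟨h3, h4⟩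
    refine ⟨fun g hg => ?_, fun v hv => Λ.add_mem (h2 v hv) (h4 v hv)⟩
    rw [add_mul, mul_add, h1 g hg, h3 g hg]
  zero_mem' := ⟨fun g _ => by rw [zero_mul, mul_zero], fun v _ => Λ.zero_mem⟩
  neg_mem' := by
    rintro x ⟨h1, h2⟩
    refine ⟨fun g hg => ?_, fun v hv => Λ.neg_mem (h2 v hv)⟩
    rw [neg_mul, mul_neg, h1 g hg]

theorem mem_ord (P : RPol ω Λ 𝒥 M d b) {x : Module.End ℝ V} :
    x ∈ P.ord ↔ (∀ g ∈ 𝒥 ∪ M, x * g = g * x) ∧ ∀ v ∈ Λ, x v ∈ Λ := Iff.rfl

/-- The real algebra spanned by the order. -/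
noncomputable def alg (P : RPol ω Λ 𝒥 M d b) : Subalgebra ℝ (Module.End ℝ V) :=
  Algebra.adjoin ℝ (P.ord : Set (Module.End ℝ V))

theorem mem_alg (P : RPol ω Λ 𝒥 M d b) {x : Module.End ℝ V} :
    x ∈ P.alg ↔ x ∈ Submodule.span ℝ (P.ord : Set (Module.End ℝ V)) := by
  have h1 : (Submonoid.closure (P.ord : Set (Module.End ℝ V)) : Set (Module.End ℝ V))
      = (P.ord : Set (Module.End ℝ V)) := by
    have h2 := Submonoid.closure_eq P.ord.toSubmonoid
    have h3 := congrArg (fun s : Submonoid (Module.End ℝ V) => (s : Set (Module.End ℝ V))) h2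
    exact h3
  rw [← h1, ← Algebra.adjoin_eq_span]
  rfl

theorem ord_le (P : RPol ω Λ 𝒥 M d b) {x : Module.End ℝ V} (hx : x ∈ P.ord) : x ∈ P.alg :=
  Algebra.subset_adjoin hx

theorem alg_comm (P : RPol ω Λ 𝒥 M d b) {x : Module.End ℝ V} (hx : x ∈ P.alg)
    {g : Module.End ℝ V} (hg : g ∈ 𝒥 ∪ M) : x * g = g * x := by
  rw [mem_alg] at hx
  induction hx using Submodule.span_induction with
  | mem x hx => exact hx.1 g hg
  | zero => rw [zero_mul, mul_zero]
  | add x y _ _ hx hy => rw [add_mul, mul_add, hx, hy]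
  | smul c x _ hx => rw [smul_mul_assoc, mul_smul_comm, hx]

theorem adj_comm (P : RPol ω Λ 𝒥 M d b) {x : Module.End ℝ V} {g : Module.End ℝ V}
    (hg : g ∈ 𝒥 ∪ M) (hx : x * g = g * x) : P.adj x * g = g * P.adj x := by
  ext w
  refine P.ext_right fun u => ?_
  obtain ⟨u', rfl⟩ := P.surj hg u
  change ω (g u') (P.adj x (g w)) = ω (g u') (g (P.adj x w))
  rw [P.unit hg, ← P.adj_spec x, ← P.adj_spec x]
  have h1 : x (g u') = g (x u') := LinearMap.congr_fun hx u'
  rw [h1, P.unit hg]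

/-- The adjoint of an element of the order. -/
theorem adj_ord (P : RPol ω Λ 𝒥 M d b) : ∃ N : ℕ, 0 < N ∧ ∀ x ∈ P.ord,
    (N : ℝ) • P.adj x ∈ P.ord := by
  obtain ⟨N, hN, hNv⟩ := P.dual
  refine ⟨N, hN, fun x hx => ⟨fun g hg => ?_, fun v hv => ?_⟩⟩
  · rw [smul_mul_assoc, mul_smul_comm, P.adj_comm hg (hx.1 g hg)]
  · change (N : ℝ) • (P.adj x v) ∈ Λ
    apply hNv
    intro w hw
    rw [← P.adj_spec' x v w]
    exact P.frm.int _ hv _ (hx.2 _ hw)

/-- The operator of an integral form is in the order up to a bounded multiple. -/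
theorem ord_of_form (P : RPol ω Λ 𝒥 M d b) : ∃ N : ℕ, 0 < N ∧ ∀ (a : Module.End ℝ V)
    (E : V → V → ℝ), IsForm Λ 𝒥 M E → (∀ u w, E u w = ω u (a w)) → (N : ℝ) • a ∈ P.ord := by
  obtain ⟨N, hN, hNv⟩ := P.dual
  refine ⟨N, hN, fun a E hE hEa => ⟨fun g hg => ?_, fun v hv => ?_⟩⟩
  · rw [smul_mul_assoc, mul_smul_comm]
    congr 1
    ext u
    refine P.ext_right fun w => ?_
    obtain ⟨w', rfl⟩ := P.surj hg w
    change ω (g w') (a (g u)) = ω (g w') (g (a u))
    rw [P.unit hg, ← hEa, ← hEa]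
    rcases hg with h | h
    · exact hE.type g h _ _
    · exact hE.inv g h _ _
  · change (N : ℝ) • a v ∈ Λ
    apply hNv
    intro w hw
    rw [P.frm.alt w (a v), ← hEa]
    obtain ⟨n, hn⟩ := hE.int w hw v hv
    exact ⟨-n, by rw [hn]; push_cast; rfl⟩

theorem adj_alg (P : RPol ω Λ 𝒥 M d b) {x : Module.End ℝ V} (hx : x ∈ P.alg) :
    P.adj x ∈ P.alg := by
  obtain ⟨N, hN, hNv⟩ := P.adj_ord
  rw [mem_alg] at hx
  induction hx using Submodule.span_induction with
  | mem x hx =>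
    have h2 : P.adj x = (N : ℝ)⁻¹ • ((N : ℝ) • P.adj x) := by
      rw [smul_smul, inv_mul_cancel₀ (by exact_mod_cast hN.ne'), one_smul]
    rw [h2]
    exact P.alg.smul_mem (P.ord_le (hNv x hx)) _
  | zero =>
    have : P.adj (0 : Module.End ℝ V) = 0 := P.adj_unique fun u w => by
      rw [LinearMap.zero_apply, LinearMap.zero_apply, P.frm.zero_left, P.frm.zero_right]
    rw [this]
    exact P.alg.zero_mem
  | add x y _ _ hx hy =>
    rw [adj_add]
    exact P.alg.add_mem hx hy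
  | smul c x _ hx =>
    rw [adj_smul]
    exact P.alg.smul_mem hx c

/-- The involution. -/
noncomputable def st (P : RPol ω Λ 𝒥 M d b) : P.alg →ₗ[ℝ] P.alg where
  toFun x := ⟨P.adj x.1, P.adj_alg x.2⟩
  map_add' x y := Subtype.ext (P.adj_add x.1 y.1)
  map_smul' c x := Subtype.ext (P.adj_smul c x.1)

/-- The order as a subring of the algebra. -/
noncomputable def R (P : RPol ω Λ 𝒥 M d b) : Subring P.alg :=
  P.ord.comap (P.alg.val : P.alg →ₐ[ℝ] Module.End ℝ V).toRingHom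

theorem mem_R (P : RPol ω Λ 𝒥 M d b) {x : P.alg} : x ∈ P.R ↔ x.1 ∈ P.ord := Iff.rfl

theorem span_R (P : RPol ω Λ 𝒥 M d b) : Submodule.span ℝ (P.R : Set P.alg) = ⊤ := by
  rw [eq_top_iff]
  rintro ⟨x, hx⟩ -
  have h1 : ∀ x, ∀ hx : x ∈ Submodule.span ℝ (P.ord : Set (Module.End ℝ V)),
      ∀ hx' : x ∈ P.alg, (⟨x, hx'⟩ : P.alg) ∈ Submodule.span ℝ (P.R : Set P.alg) := by
    intro x hx
    induction hx using Submodule.span_induction with
    | mem x hx => exact fun hx' => Submodule.subset_span hx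
    | zero => exact fun hx' => Submodule.zero_mem _
    | add x y hx hy h1 h2 =>
      intro hx'
      exact Submodule.add_mem _ (h1 (P.mem_alg.2 hx)) (h2 (P.mem_alg.2 hy))
    | smul c x hx h1 =>
      intro hx'
      exact Submodule.smul_mem _ c (h1 (P.mem_alg.2 hx))
  exact h1 x (P.mem_alg.1 hx) hx

theorem comm_J (P : RPol ω Λ 𝒥 M d b) {a : Module.End ℝ V} (ha : a ∈ P.alg)
    {J : Module.End ℝ V} (hJ : J ∈ 𝒥) (v : V) : a (J v) = J (a v) :=
  LinearMap.congr_fun (P.alg_comm ha (Or.inl hJ)) v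

theorem nonneg (P : RPol ω Λ 𝒥 M d b) {J : Module.End ℝ V} (hJ : J ∈ 𝒥) (v : V) :
    0 ≤ ω v (J v) := by
  by_cases hv : v = 0
  · rw [hv, P.frm.zero_left]
  · exact (P.pos J hJ v hv).le

/-- The system of the algebra. -/
theorem exists_S (P : RPol ω Λ 𝒥 M d b) {J : Module.End ℝ V} (hJ : J ∈ 𝒥) :
    ∃ (r : ℕ) (S : Sys P.alg r), S.st = P.st ∧ S.R = P.R ∧
      ∀ a : P.alg, (∀ u, 0 ≤ ω u (J (a.1 u))) → 0 ≤ S.tr a := by
  classical
  let φ : P.alg →ₗ[ℝ] (Fin d × Fin d → ℝ) :=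
    { toFun := fun x p => b.repr (x.1 (b p.1)) p.2
      map_add' := fun x y => by
        funext p
        change b.repr (x.1 (b p.1) + y.1 (b p.1)) p.2 = _
        rw [map_add]
        rfl
      map_smul' := fun c x => by
        funext p
        change b.repr (c • (x.1 (b p.1))) p.2 = _
        rw [map_smul]
        rfl }
  have hbE : ∀ x : Module.End ℝ V, (∀ i, x (b i) = 0) → x = 0 := fun x hx => b.ext fun i => by
    rw [hx, LinearMap.zero_apply]
  have hφ : Function.Injective φ := by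
    rw [injective_iff_map_eq_zero]
    intro x hx
    apply Subtype.ext
    apply hbE
    intro i
    apply b.repr.injective
    rw [map_zero]
    ext j
    exact congrFun hx (i, j)
  obtain ⟨r, bas, hbas⟩ := lattice_basis φ hφ P.R.toAddSubgroup P.span_R (by
    rintro x hx ⟨i, j⟩
    exact (P.mem _).1 (hx.2 _ (P.b_mem i)) j)
  obtain ⟨N, hN, hNv⟩ := P.adj_ord
  let B : P.alg → P.alg → ℝ := fun x y => ∑ i, ω (x.1 (b i)) (J (y.1 (b i)))
  obtain ⟨S, h1, h2, h3, h4⟩ := exists_sys P.R bas hbas P.st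
    (fun a => Subtype.ext (P.adj_adj a.1))
    (fun x y => Subtype.ext (P.adj_mul x.1 y.1)) N hN
    (fun x hx => hNv x.1 hx) B
    (fun x y z => by
      simp only [B]
      rw [← Finset.sum_add_distrib]
      refine Finset.sum_congr rfl fun i _ => ?_
      rw [← P.frm.add]
      rfl)
    (fun c x y => by
      simp only [B]
      rw [Finset.mul_sum]
      refine Finset.sum_congr rfl fun i _ => ?_
      rw [← P.frm.smul]
      rfl)
    (fun x y => by
      simp only [B]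
      exact Finset.sum_congr rfl fun i _ => P.sym hJ _ _)
    (fun x hx => by
      have h1 : ∃ i, x.1 (b i) ≠ 0 := by
        by_contra hcon
        push Not at hcon
        exact hx (Subtype.ext (hbE _ hcon))
      obtain ⟨i, hi⟩ := h1
      exact Finset.sum_pos' (fun i _ => P.nonneg hJ _) ⟨i, Finset.mem_univ _, P.pos J hJ _ hi⟩)
    (fun a x y => by
      simp only [B]
      refine Finset.sum_congr rfl fun i _ => ?_
      change ω (x.1 (b i)) (J (a.1 (y.1 (b i)))) = ω (P.adj a.1 (x.1 (b i))) _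
      rw [← P.comm_J a.2 hJ, P.adj_spec' a.1])
  refine ⟨r, S, h1, h2, fun a ha => h4 a fun x => ?_⟩
  simp only [B]
  refine Finset.sum_nonneg fun i _ => ?_
  exact ha _

/-- Positivity of the form implies positivity in the system. -/
theorem psd_of (P : RPol ω Λ 𝒥 M d b) {J : Module.End ℝ V} (hJ : J ∈ 𝒥) {r : ℕ}
    {S : Sys P.alg r} (hS : S.st = P.st)
    (hS3 : ∀ a : P.alg, (∀ u, 0 ≤ ω u (J (a.1 u))) → 0 ≤ S.tr a) {a : P.alg}
    (hst : P.st a = a) (ha : ∀ u, 0 ≤ ω u (J (a.1 u))) : S.Psd a := by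
  rw [Sys.psd_iff']
  refine ⟨by rw [hS, hst], fun x => hS3 _ fun u => ?_⟩
  rw [hS]
  change 0 ≤ ω u (J (P.adj x.1 (a.1 (x.1 u))))
  rw [← P.comm_J (P.adj_alg x.2) hJ, ← P.adj_spec x.1]
  exact ha _

/-- Positivity in the system implies positivity of the form on all fibres. -/
theorem of_psd (P : RPol ω Λ 𝒥 M d b) {r : ℕ} {S : Sys P.alg r} (hS : S.st = P.st)
    {a : P.alg} (ha : S.Psd a) {J : Module.End ℝ V} (hJ : J ∈ 𝒥) (u : V) :
    0 ≤ ω u (J (a.1 u)) := by
  let φ : P.alg →ₗ[ℝ] ℝ :=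
    { toFun := fun x => ω u (J (x.1 u))
      map_add' := fun x y => by
        change ω u (J (x.1 u + y.1 u)) = _
        rw [map_add, P.frm.add_right]
      map_smul' := fun c x => by
        change ω u (J (c • (x.1 u))) = _
        rw [map_smul, P.frm.smul_right]
        rfl }
  obtain ⟨v, hv, hφ⟩ := S.riesz φ
  have h1 : S.Psd v := by
    rw [Sys.psd_iff']
    refine ⟨hv, fun x => ?_⟩
    have h2 : S.tr (S.st x * v * x) = S.tr (x * S.st x * v) := by
      rw [S.tr_comm, mul_assoc]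
    rw [h2, ← hφ (x * S.st x) (by rw [S.st_mul, S.st_st])]
    change 0 ≤ ω u (J (x.1 ((S.st x).1 u)))
    rw [hS]
    change 0 ≤ ω u (J (x.1 (P.adj x.1 u)))
    rw [← P.comm_J x.2 hJ, P.adj_spec' x.1]
    exact P.nonneg hJ _
  have h2 : φ a = S.tr (a * v) := hφ a ha.sa
  have h3 : ω u (J (a.1 u)) = φ a := rfl
  rw [h3, h2]
  exact Sys.tr_mul_nonneg ha h1

end RPol

end Pool.Agent.W4h4.AS
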