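import Pool.Agent.W4h4.AS.Red

/-!
# The data for the fundamental domain
-/

set_option autoImplicit false

namespace Pool.Agent.W4h4.AS

open Finset
open Pool.Agent.Y167 (Sys cone CData)

variable {V : Type*} [AddCommGroup V] [Module ℝ V]

namespace RPol

variable {ω : V → V → ℝ} {Λ : AddSubgroup V} {𝒥 M : Set (Module.End ℝ V)} {d : ℕ}
  {b : Module.Basis (Fin d) ℝ V}

theorem exists_cdata (P : RPol ω Λ 𝒥 M d b) :
    ∃ (ξ₀ : N1 Λ 𝒥 M →ₗ[ℝ] ℝ) (y₀ : N1 Λ 𝒥 M) (Y : Finset (N1 Λ 𝒥 M)),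
      CData (intL Λ 𝒥 M) (nefCone Λ 𝒥 M) ξ₀ y₀ Y ∧ form y₀ = ω := by
  classical
  obtain ⟨J₀, hJ₀⟩ := P.ne
  obtain ⟨r, S, hS1, hS2, hS3⟩ := P.exists_S hJ₀
  obtain ⟨op, hop, hopst, hopinj⟩ := P.exists_opN
  obtain ⟨N, hN, hNo⟩ := P.ord_of_form
  obtain ⟨y₁, hy₁'⟩ := exists_of_form P.frm
  have hy₁ : y₁ ∈ integral Λ 𝒥 M := by
    change IsForm Λ 𝒥 M (form y₁)
    rw [hy₁']
    exact P.frm
  have hNr : (0 : ℝ) < N := by exact_mod_cast hN
  have hSN : (0 : ℝ) < S.N := by exact_mod_cast S.N_pos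
  have hpsd : ∀ x ∈ nefCone Λ 𝒥 M, S.Psd (op x) := by
    intro x hx
    refine P.psd_of hJ₀ hS1 hS3 (hopst x) fun u => ?_
    rw [← P.comm_J (op x).2 hJ₀, ← hop]
    exact hx J₀ hJ₀ u
  have hR : ∀ x ∈ integral Λ 𝒥 M, (N : ℝ) • op x ∈ S.R := by
    intro x hx
    rw [hS2, P.mem_R]
    exact hNo (op x).1 (form x) hx (hop x)
  set ξ₀ : N1 Λ 𝒥 M →ₗ[ℝ] ℝ := (N : ℝ) • (S.tr ∘ₗ op) with hξ₀
  have hξ : ∀ x, ξ₀ x = S.tr ((N : ℝ) • op x) := by
    intro x
    rw [hξ₀, LinearMap.smul_apply, LinearMap.comp_apply, map_smul]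
  have hξ' : ∀ x, ξ₀ x = N * S.tr (op x) := fun x => rfl
  have hsa : ∀ x, S.st (op x) = op x := fun x => by rw [hS1, hopst]
  have hdom1 : ∀ v : P.alg, S.st v = v → ∃ C : ℝ, 0 < C ∧ S.Psd (C • 1 - v) := fun v hv =>
    (Sys.pd_one (S := S)).dominate hv
  -- the interior point
  have hyN : ∀ x : N1 Λ 𝒥 M, ∃ C : ℝ, 0 < C ∧ C • y₁ - x ∈ nefCone Λ 𝒥 M := by
    intro x
    obtain ⟨C, hC, h1⟩ := hdom1 (op x) (hsa x)
    refine ⟨C, hC, fun J hJ u => ?_⟩
    have h2 := P.of_psd hS1 h1 hJ u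
    rw [form_sub, form_smul, hy₁', hop, P.comm_J (op x).2 hJ]
    change 0 ≤ ω u (J (C • u - (op x).1 u)) at h2
    have h3 : J (C • u - (op x).1 u) = C • J u + (-1 : ℝ) • J ((op x).1 u) := by
      rw [map_sub, map_smul, neg_one_smul, sub_eq_add_neg]
    rw [h3, P.frm.add_right, P.frm.smul_right, P.frm.smul_right] at h2
    linarith
  have hy₁nef : y₁ ∈ nefCone Λ 𝒥 M := by
    intro J hJ u
    rw [hy₁']
    exact P.nonneg hJ u
  -- the spanning set
  obtain ⟨t, ht, htspan, htli⟩ := exists_linearIndependent ℝ (intL Λ 𝒥 M : Set (N1 Λ 𝒥 M))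
  have hfinN : FiniteDimensional ℝ (N1 Λ 𝒥 M) := by
    have : Module.Finite ℝ P.alg := Module.Finite.of_basis S.bas
    exact Module.Finite.of_injective op hopinj
  have htfin : t.Finite := htli.setFinite
  have hchoose : ∀ x : N1 Λ 𝒥 M, ∃ n : ℕ, (n : ℝ) • y₁ - x ∈ nefCone Λ 𝒥 M := by
    intro x
    obtain ⟨C, hC, h1⟩ := hyN x
    refine ⟨⌈C⌉₊, ?_⟩
    have h2 : ((⌈C⌉₊ : ℝ) - C) • y₁ ∈ nefCone Λ 𝒥 M :=
      nef_smul (sub_nonneg.2 (Nat.le_ceil C)) hy₁nef
    have h3 := nef_add h2 h1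
    have h4 : ((⌈C⌉₊ : ℝ) - C) • y₁ + (C • y₁ - x) = (⌈C⌉₊ : ℝ) • y₁ - x := by
      module
    rwa [h4] at h3
  choose nf hnf using hchoose
  refine ⟨ξ₀, y₁, insert y₁ (htfin.toFinset.image fun x => (nf x : ℝ) • y₁ - x), ?_, hy₁'⟩
  refine
    { add := fun x hx y hy => nef_add hx hy
      smul := fun t ht x hx => nef_smul ht hx
      xi_int := fun x hx => ?_
      xi_pos := fun x hx hx0 => ?_
      fin := fun C => ?_
      y_L := hy₁
      y_N := hy₁nef
      y_int := hyN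
      dom := fun η => ?_
      sep := fun x hx => ?_
      Y_mem := fun y hy => ?_
      Y_span := fun φ hφ => ?_ }
  · rw [hξ]
    exact S.tr_int (hR _ hx)
  · rw [hξ']
    have h1 := (hpsd x hx).tr_pos (fun h => hx0 (hopinj (by rw [h, map_zero])))
    positivity
  · refine Set.Finite.of_finite_image (f := fun x => (S.N : ℝ) • ((N : ℝ) • op x))
      ((S.int_finite (S.N * C)).subset ?_) ?_
    · rintro _ ⟨x, ⟨hxM, hxN, hxC⟩, rfl⟩
      have h1 := hR _ hxM
      refine ⟨?_, ?_, ?_⟩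
      · exact ((hpsd _ hxN).smul hNr.le).smul hSN.le
      · intro y hy z hz
        have h2 := S.tr_int (S.R.mul_mem (S.R.mul_mem (S.N_st y hy) h1) hz)
        obtain ⟨n, hn⟩ := h2
        refine ⟨n, ?_⟩
        rw [← hn, mul_smul_comm, smul_mul_assoc, smul_mul_assoc, smul_mul_assoc]
      · rw [map_smul, smul_eq_mul, ← hξ]
        exact mul_le_mul_of_nonneg_left hxC hSN.le
    · rintro x - y - hxy
      have h1 : (S.N : ℝ) • ((N : ℝ) • op x) = (S.N : ℝ) • ((N : ℝ) • op y) := hxy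
      have h2 := smul_right_injective P.alg hSN.ne' h1
      exact hopinj (smul_right_injective P.alg hNr.ne' h2)
  · obtain ⟨g, hg⟩ := LinearMap.exists_leftInverse_of_injective op
      (LinearMap.ker_eq_bot.2 hopinj)
    obtain ⟨v, hv, hφ⟩ := S.riesz (η ∘ₗ g)
    have hηx : ∀ x, η x = S.tr (op x * v) := by
      intro x
      rw [← hφ (op x) (hsa x)]
      have h1 : g (op x) = x := LinearMap.congr_fun hg x
      rw [LinearMap.comp_apply, h1]
    obtain ⟨C₁, hC₁, h1⟩ := hdom1 v hv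
    obtain ⟨C₂, hC₂, h2⟩ := hdom1 (-v) (by rw [map_neg, hv])
    refine ⟨(C₁ + C₂) / N, fun x hx => ?_⟩
    have hpx := hpsd x hx
    have h3 := Sys.tr_mul_nonneg hpx h1
    have h4 := Sys.tr_mul_nonneg hpx h2
    rw [mul_sub, mul_smul_comm, mul_one, map_sub, map_smul, smul_eq_mul] at h3
    have h7 : op x * -v = -(op x * v) := Subtype.ext (mul_neg (op x).1 v.1)
    rw [mul_sub, mul_smul_comm, mul_one, map_sub, map_smul, smul_eq_mul, h7, map_neg] at h4
    have h5 := hpx.tr_nonneg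
    have h6 : (C₁ + C₂) / N * ξ₀ x = (C₁ + C₂) * S.tr (op x) := by
      rw [hξ']
      field_simp
    rw [h6, hηx, abs_le]
    constructor <;> nlinarith
  · -- separation
    have hfx := isForm_form x
    have hex : ∃ i l, form x (b i) (b l) ≠ 0 := by
      by_contra hcon
      push Not at hcon
      apply hx
      have hL : hfx.toL = 0 := by
        refine b.ext fun i => b.ext fun l => ?_
        exact hcon i l
      refine form_ext fun u w => ?_
      exact LinearMap.congr_fun (LinearMap.congr_fun hL u) w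
    obtain ⟨i, l, hil⟩ := hex
    refine ⟨{ toFun := fun y => form y (b i) (b l)
              map_add' := fun y z => rfl
              map_smul' := fun c y => rfl }, fun y hy => ?_, hil⟩
    have hy' : IsForm Λ 𝒥 M (form y) := hy
    exact hy'.int _ (P.b_mem i) _ (P.b_mem l)
  · rcases Finset.mem_insert.1 hy with rfl | h
    · exact ⟨hy₁, hy₁nef⟩
    · obtain ⟨x, hx, rfl⟩ := Finset.mem_image.1 h
      rw [htfin.mem_toFinset] at hx
      refine ⟨(intL Λ 𝒥 M).sub_mem ?_ (ht hx), hnf x⟩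
      rw [Nat.cast_smul_eq_nsmul]
      exact (intL Λ 𝒥 M).nsmul_mem hy₁ _
  · have h0 : φ y₁ = 0 := hφ _ (Finset.mem_insert_self _ _)
    have h1 : ∀ x ∈ t, φ x = 0 := by
      intro x hx
      have h2 := hφ ((nf x : ℝ) • y₁ - x)
        (Finset.mem_insert_of_mem (Finset.mem_image_of_mem _ (htfin.mem_toFinset.2 hx)))
      rw [map_sub, map_smul φ (nf x : ℝ), h0, smul_zero, zero_sub, neg_eq_zero] at h2
      exact h2
    have h2 : (⊤ : Submodule ℝ (N1 Λ 𝒥 M)) ≤ LinearMap.ker φ := by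
      rw [← span_intL, ← htspan, Submodule.span_le]
      intro x hx
      exact h1 x hx
    exact LinearMap.ker_eq_top.1 (top_le_iff.1 h2)

end RPol

/-- The automorphisms of the lattice which commute with the operators in `G`. -/
structure IsU (Λ : AddSubgroup V) (G : Set (Module.End ℝ V)) (u : V ≃ₗ[ℝ] V) : Prop where
  map : ∀ v ∈ Λ, u v ∈ Λ
  symm : ∀ v ∈ Λ, u.symm v ∈ Λ
  comm : ∀ g ∈ G, ∀ e, u (g e) = g (u e)

section units

variable {Λ : AddSubgroup V} {G : Set (Module.End ℝ V)}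

theorem IsU.inv {u : V ≃ₗ[ℝ] V} (hu : IsU Λ G u) : IsU Λ G u.symm where
  map := hu.symm
  symm := hu.map
  comm := fun g hg e => by
    apply u.injective
    rw [u.apply_symm_apply, hu.comm g hg, u.apply_symm_apply]

theorem IsU.trans {u v : V ≃ₗ[ℝ] V} (hu : IsU Λ G u) (hv : IsU Λ G v) :
    IsU Λ G (u.trans v) where
  map := fun x hx => hv.map _ (hu.map x hx)
  symm := fun x hx => hu.symm _ (hv.symm x hx)
  comm := fun g hg e => by
    rw [LinearEquiv.trans_apply, LinearEquiv.trans_apply, hu.comm g hg, hv.comm g hg]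

/-- The units which are congruent to one modulo `k` have finite index. -/
theorem fin_idx {d : ℕ} {b : Module.Basis (Fin d) ℝ V}
    (hb : ∀ x, x ∈ Λ ↔ ∀ i, ∃ n : ℤ, b.repr x i = n) (k : ℕ) (hk : 0 < k) :
    ∃ 𝓡 : Set (V ≃ₗ[ℝ] V), 𝓡.Finite ∧ (∀ r ∈ 𝓡, IsU Λ G r) ∧
      ∀ u, IsU Λ G u → ∃ r ∈ 𝓡, ∃ u', IsU Λ G u' ∧ (∀ v ∈ Λ, ∃ c ∈ Λ, u' v = v + k • c) ∧
        ∀ e, u e = r (u' e) := by
  classical
  have : NeZero k := ⟨hk.ne'⟩
  have hbm : ∀ i, b i ∈ Λ := by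
    intro i
    rw [hb]
    intro j
    rw [Module.Basis.repr_self]
    by_cases hij : i = j
    · exact ⟨1, by rw [hij]; simp⟩
    · exact ⟨0, by rw [Finsupp.single_eq_of_ne (by exact fun h => hij h.symm)]; simp⟩
  let Φ : (V ≃ₗ[ℝ] V) → (Fin d → Fin d → ZMod k) := fun u =>
    fun i l => ((⌊b.repr (u (b i)) l⌋ : ℤ) : ZMod k)
  have hfin : (Φ '' {u | IsU Λ G u}).Finite := Set.toFinite _
  have hsur : ∀ y ∈ Φ '' {u | IsU Λ G u}, ∃ u, IsU Λ G u ∧ Φ u = y := fun y hy => hy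
  choose! f hf1 hf2 using hsur
  refine ⟨f '' (Φ '' {u | IsU Λ G u}), hfin.image f, ?_, ?_⟩
  · rintro _ ⟨y, hy, rfl⟩
    exact hf1 y hy
  · intro u hu
    have hy : Φ u ∈ Φ '' {u | IsU Λ G u} := ⟨u, hu, rfl⟩
    set r := f (Φ u) with hr
    have hrU : IsU Λ G r := hf1 _ hy
    have hrΦ : Φ r = Φ u := hf2 _ hy
    refine ⟨r, ⟨_, hy, rfl⟩, u.trans r.symm, hu.trans hrU.inv, ?_, fun e => ?_⟩
    · have hb' : ∀ i, ∃ c ∈ Λ, u (b i) - r (b i) = (k : ℝ) • c := by
        intro i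
        have hk : ∀ l, ∃ t : ℤ, b.repr (u (b i)) l - b.repr (r (b i)) l = (k : ℝ) * t := by
          intro l
          obtain ⟨p, hp⟩ := (hb _).1 (hu.map _ (hbm i)) l
          obtain ⟨q, hq⟩ := (hb _).1 (hrU.map _ (hbm i)) l
          have h1 : ((⌊b.repr (r (b i)) l⌋ : ℤ) : ZMod k) = ((⌊b.repr (u (b i)) l⌋ : ℤ) : ZMod k) :=
            congrFun (congrFun hrΦ i) l
          rw [hp, hq, Int.floor_intCast, Int.floor_intCast, ZMod.intCast_eq_intCast_iff_dvd_sub] at h1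
          obtain ⟨t, ht⟩ := h1
          refine ⟨t, ?_⟩
          rw [hp, hq]
          exact_mod_cast ht
        choose t ht using hk
        refine ⟨∑ l, (t l : ℝ) • b l, ?_, ?_⟩
        · refine Λ.sum_mem fun l _ => ?_
          rw [Int.cast_smul_eq_zsmul]
          exact Λ.zsmul_mem (hbm l) _
        · rw [← b.sum_repr (u (b i) - r (b i)), Finset.smul_sum]
          refine Finset.sum_congr rfl fun l _ => ?_
          rw [map_sub, Finsupp.sub_apply, ht, smul_smul]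
      choose c hc hcb using hb'
      intro v hv
      choose n hn using (hb v).1 hv
      have hv' : v = ∑ i, (n i : ℝ) • b i := by
        conv_lhs => rw [← b.sum_repr v]
        exact Finset.sum_congr rfl fun i _ => by rw [hn]
      refine ⟨r.symm (∑ i, (n i : ℝ) • c i), hrU.symm _ (Λ.sum_mem fun i _ => by
        rw [Int.cast_smul_eq_zsmul]
        exact Λ.zsmul_mem (hc i) _), ?_⟩
      have h1 : u v - r v = (k : ℝ) • ∑ i, (n i : ℝ) • c i := by
        have e1 : ∀ w : V ≃ₗ[ℝ] V, w v = ∑ i, (n i : ℝ) • w (b i) := by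
          intro w
          rw [hv', map_sum]
          exact Finset.sum_congr rfl fun i _ => by rw [map_smul]
        rw [e1, e1, ← Finset.sum_sub_distrib, Finset.smul_sum]
        refine Finset.sum_congr rfl fun i _ => ?_
        rw [← smul_sub, hcb, smul_comm]
      rw [← sub_eq_iff_eq_add']
      have h2 : (u.trans r.symm) v - v = r.symm (u v - r v) := by
        rw [map_sub, r.symm_apply_apply]
        rfl
      rw [h2, h1, map_smul, Nat.cast_smul_eq_nsmul]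
    · rw [LinearEquiv.trans_apply, r.apply_symm_apply]

end units

section pull

variable {Λ : AddSubgroup V} {𝒥 M : Set (Module.End ℝ V)}

/-- Pullback of forms. -/
def pb (u : V ≃ₗ[ℝ] V) : (V → V → ℝ) →ₗ[ℝ] (V → V → ℝ) where
  toFun h := fun v w => h (u v) (u w)
  map_add' _ _ := rfl
  map_smul' _ _ := rfl

theorem isForm_pb {u : V ≃ₗ[ℝ] V} (hu : IsU Λ (𝒥 ∪ M) u) {E : V → V → ℝ}
    (hE : IsForm Λ 𝒥 M E) : IsForm Λ 𝒥 M (pb u E) := by
  refine ⟨fun x y z => ?_, fun c x y => ?_, fun x y => ?_, fun x hx y hy => ?_,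
    fun J hJ x y => ?_, fun g hg x y => ?_⟩
  · change E (u (x + y)) (u z) = E (u x) (u z) + E (u y) (u z)
    rw [map_add, hE.add]
  · change E (u (c • x)) (u y) = c * E (u x) (u y)
    rw [map_smul, hE.smul]
  · exact hE.alt _ _
  · exact hE.int _ (hu.map x hx) _ (hu.map y hy)
  · change E (u (J x)) (u (J y)) = E (u x) (u y)
    rw [hu.comm J (Or.inl hJ), hu.comm J (Or.inl hJ), hE.type J hJ]
  · change E (u (g x)) (u (g y)) = E (u x) (u y)
    rw [hu.comm g (Or.inr hg), hu.comm g (Or.inr hg), hE.inv g hg]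

theorem pb_N1 {u : V ≃ₗ[ℝ] V} (hu : IsU Λ (𝒥 ∪ M) u) {E : V → V → ℝ}
    (hE : E ∈ N1s Λ 𝒥 M) : pb u E ∈ N1s Λ 𝒥 M := by
  induction hE using Submodule.span_induction with
  | mem x hx => exact Submodule.subset_span (isForm_pb hu hx)
  | zero => rw [map_zero]; exact Submodule.zero_mem _
  | add x y _ _ hx hy => rw [map_add]; exact Submodule.add_mem _ hx hy
  | smul c x _ hx => rw [map_smul]; exact Submodule.smul_mem _ c hx

/-- The action of an automorphism on `N^1`. -/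
theorem exists_pull {u : V ≃ₗ[ℝ] V} (hu : IsU Λ (𝒥 ∪ M) u) :
    ∃ g : N1 Λ 𝒥 M ≃ₗ[ℝ] N1 Λ 𝒥 M, IsPullback u g ∧ IsPullback u.symm g.symm ∧
      (∀ x ∈ integral Λ 𝒥 M, g x ∈ integral Λ 𝒥 M) ∧
      (∀ x ∈ integral Λ 𝒥 M, g.symm x ∈ integral Λ 𝒥 M) ∧
      (∀ x ∈ nefCone Λ 𝒥 M, g x ∈ nefCone Λ 𝒥 M) ∧
      ∀ x ∈ nefCone Λ 𝒥 M, g.symm x ∈ nefCone Λ 𝒥 M := by
  let g : N1 Λ 𝒥 M ≃ₗ[ℝ] N1 Λ 𝒥 M :=
    { toFun := fun x => ⟨pb u x.1, pb_N1 hu x.2⟩
      map_add' := fun x y => rfl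
      map_smul' := fun c x => rfl
      invFun := fun x => ⟨pb u.symm x.1, pb_N1 hu.inv x.2⟩
      left_inv := fun x => by
        refine form_ext fun v w => ?_
        change form x (u (u.symm v)) (u (u.symm w)) = _
        rw [u.apply_symm_apply, u.apply_symm_apply]
      right_inv := fun x => by
        refine form_ext fun v w => ?_
        change form x (u.symm (u v)) (u.symm (u w)) = _
        rw [u.symm_apply_apply, u.symm_apply_apply] }
  have hg : ∀ x v w, form (g x) v w = form x (u v) (u w) := fun _ _ _ => rfl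
  have hg' : ∀ x v w, form (g.symm x) v w = form x (u.symm v) (u.symm w) := fun _ _ _ => rfl
  refine ⟨g, hg, hg', fun x hx => isForm_pb hu hx, fun x hx => isForm_pb hu.inv hx,
    fun x hx J hJ v => ?_, fun x hx J hJ v => ?_⟩
  · rw [hg, hu.comm J (Or.inl hJ)]
    exact hx J hJ _
  · rw [hg', hu.inv.comm J (Or.inl hJ)]
    exact hx J hJ _

end pull

end Pool.Agent.W4h4.AS
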