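import Pool.Agent.W4h4.AS.CD

/-!
# The covering of the cone of classes of a family of abelian varieties
-/

set_option autoImplicit false

namespace Pool.Agent.W4h4.AS

open Finset Filter Topology
open Pool.Agent.Y167 (Sys cone CData Cp cone_ind cone_le cone_image mem_cone_self mem_cone_of_sum
  cone_smul)

variable {V : Type*} [AddCommGroup V] [Module ℝ V]

section

variable (Λ : AddSubgroup V) (𝒥 M : Set (Module.End ℝ V))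

instance : IsTopologicalAddGroup (N1 Λ 𝒥 M) := inferInstanceAs (IsTopologicalAddGroup (N1s Λ 𝒥 M))

instance : ContinuousSMul ℝ (N1 Λ 𝒥 M) := inferInstanceAs (ContinuousSMul ℝ (N1s Λ 𝒥 M))

end

variable {Λ : AddSubgroup V} {𝒥 M : Set (Module.End ℝ V)}

theorem nefEff_nef {x : N1 Λ 𝒥 M} (hx : x ∈ nefEff Λ 𝒥 M) : x ∈ nefCone Λ 𝒥 M := by
  obtain ⟨S, hS, hx⟩ := hx
  refine cone_ind (p := fun x => x ∈ nefCone Λ 𝒥 M) (fun J hJ u => le_refl (0 : ℝ))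
    (fun x y hx hy => nef_add hx hy) (fun t x ht hx => nef_smul ht hx)
    (fun a ha => (hS ha).2) hx

theorem nefEff_of_int {x : N1 Λ 𝒥 M} (h1 : x ∈ integral Λ 𝒥 M) (h2 : x ∈ nefCone Λ 𝒥 M) :
    x ∈ nefEff Λ 𝒥 M :=
  ⟨{x}, by simpa using ⟨h1, h2⟩, mem_cone_self (Finset.mem_singleton_self x)⟩

theorem nefEff_add {x y : N1 Λ 𝒥 M} (hx : x ∈ nefEff Λ 𝒥 M) (hy : y ∈ nefEff Λ 𝒥 M) :
    x + y ∈ nefEff Λ 𝒥 M := by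
  classical
  obtain ⟨S, hS, hx⟩ := hx
  obtain ⟨T, hT, hy⟩ := hy
  refine ⟨S ∪ T, ?_, ?_⟩
  · rw [Finset.coe_union]
    exact Set.union_subset hS hT
  · exact Pool.Agent.Y167.cone_add
      (Pool.Agent.Y167.cone_mono Finset.subset_union_left hx)
      (Pool.Agent.Y167.cone_mono Finset.subset_union_right hy)

theorem nefEff_smul {x : N1 Λ 𝒥 M} {t : ℝ} (ht : 0 ≤ t) (hx : x ∈ nefEff Λ 𝒥 M) :
    t • x ∈ nefEff Λ 𝒥 M := by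
  obtain ⟨S, hS, hx⟩ := hx
  exact ⟨S, hS, cone_smul hx ht⟩

/-- The relatively ample classes are moved into a finitely generated cone by the automorphisms of
level `k`. -/
theorem cover (h : IsFamily Λ 𝒥 M) {k : ℕ} (hk : 0 < k) :
    ∃ (ξ₀ : N1 Λ 𝒥 M →ₗ[ℝ] ℝ) (y₀ : N1 Λ 𝒥 M) (Y F : Finset (N1 Λ 𝒥 M)),
      CData (intL Λ 𝒥 M) (nefCone Λ 𝒥 M) ξ₀ y₀ Y ∧
      (∀ a ∈ F, a ∈ integral Λ 𝒥 M ∧ a ∈ nefCone Λ 𝒥 M) ∧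
      ∀ x : N1 Λ 𝒥 M, (∃ t : ℝ, 0 < t ∧ x - t • y₀ ∈ nefCone Λ 𝒥 M) →
        x ∈ nefEff Λ 𝒥 M ∧
        ∃ u : V ≃ₗ[ℝ] V, IsAutLevel Λ 𝒥 M k u ∧ ∃ g : N1 Λ 𝒥 M ≃ₗ[ℝ] N1 Λ 𝒥 M,
          IsPullback u g ∧ g x ∈ cone F := by
  classical
  obtain ⟨ω, hω1, hω2⟩ := h.projective
  obtain ⟨d, b, hb⟩ := h.lattice
  have P : RPol ω Λ 𝒥 M d b := ⟨hω1, hω2, h.nonempty, h.complex, hb⟩
  obtain ⟨ξ₀, y₀, Y, D, hy₀⟩ := P.exists_cdata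
  obtain ⟨F, hF, hFc⟩ := P.red
  obtain ⟨𝓡, h𝓡f, h𝓡U, h𝓡⟩ := fin_idx (G := 𝒥 ∪ M) hb k hk
  -- the generators
  have hcl : ∀ (z : N1 Λ 𝒥 M) (r : V ≃ₗ[ℝ] V), z ∈ F → r ∈ 𝓡 → ∃ a : N1 Λ 𝒥 M,
      a ∈ integral Λ 𝒥 M ∧ a ∈ nefCone Λ 𝒥 M ∧ ∀ u w, form a u w = form z (r u) (r w) := by
    intro z r hz hr
    obtain ⟨hz1, hz2⟩ := hF z hz
    obtain ⟨g, hg1, -, hg3, -, hg5, -⟩ := exists_pull (h𝓡U r hr)
    exact ⟨g z, hg3 z hz1, hg5 z hz2, hg1 z⟩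
  choose! af haf1 haf2 haf3 using hcl
  let F₂ : Finset (N1 Λ 𝒥 M) := (F ×ˢ h𝓡f.toFinset).image fun p => af p.1 p.2
  have hF₂ : ∀ a ∈ F₂, a ∈ integral Λ 𝒥 M ∧ a ∈ nefCone Λ 𝒥 M := by
    intro a ha
    obtain ⟨p, hp, rfl⟩ := Finset.mem_image.1 ha
    rw [Finset.mem_product, h𝓡f.mem_toFinset] at hp
    exact ⟨haf1 _ _ hp.1 hp.2, haf2 _ _ hp.1 hp.2⟩
  refine ⟨ξ₀, y₀, Y, F₂, D, hF₂, ?_⟩
  rintro x ⟨t, ht, hxt⟩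
  obtain ⟨u, hu1, hu2, hu3, c, hc, hx⟩ := hFc x ⟨t, ht, fun J hJ v => by
    have h1 := hxt J hJ v
    rw [form_sub, form_smul, hy₀] at h1
    linarith⟩
  obtain ⟨r, hr, u', hu', hul, hur⟩ := h𝓡 u ⟨hu1, hu2, hu3⟩
  obtain ⟨g, hg1, -, -, hg4, -, hg6⟩ := exists_pull hu'.inv
  have hlev : IsAutLevel Λ 𝒥 M k u'.symm := by
    refine ⟨fun x => ⟨fun hx => hu'.symm x hx, fun hx => ?_⟩, fun J hJ x => ?_, fun g hg x => ?_,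
      fun x hx => ?_⟩
    · have h1 := hu'.map _ hx
      rwa [u'.apply_symm_apply] at h1
    · exact hu'.inv.comm J (Or.inl hJ) x
    · exact hu'.inv.comm g (Or.inr hg) x
    · obtain ⟨c, hc, h1⟩ := hul _ (hu'.symm x hx)
      rw [u'.apply_symm_apply] at h1
      refine ⟨-c, Λ.neg_mem hc, ?_⟩
      rw [smul_neg, ← sub_eq_add_neg, eq_sub_iff_add_eq]
      exact h1.symm
  have hgx : g x ∈ cone F₂ := by
    have h1 : g x = ∑ z ∈ F, c z • af z r := by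
      refine form_ext fun v w => ?_
      rw [form_sum, hg1 x v w, hx]
      refine Finset.sum_congr rfl fun z hz => ?_
      rw [form_smul, haf3 z r hz hr, hur, hur, u'.apply_symm_apply, u'.apply_symm_apply]
    rw [h1]
    refine mem_cone_of_sum F _ _ (fun z hz => ?_) (fun z _ => hc z)
    exact Finset.mem_image.2 ⟨(z, r), by
      rw [Finset.mem_product, h𝓡f.mem_toFinset]
      exact ⟨hz, hr⟩, rfl⟩
  refine ⟨?_, u'.symm, hlev, g, hg1, hgx⟩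
  have h1 := cone_image (g.symm : N1 Λ 𝒥 M →ₗ[ℝ] N1 Λ 𝒥 M) hgx
  have h2 : (g.symm : N1 Λ 𝒥 M →ₗ[ℝ] N1 Λ 𝒥 M) (g x) = x := g.symm_apply_apply x
  rw [h2] at h1
  refine ⟨F₂.image (g.symm : N1 Λ 𝒥 M →ₗ[ℝ] N1 Λ 𝒥 M), ?_, h1⟩
  intro a ha
  obtain ⟨a', ha', rfl⟩ := Finset.mem_image.1 (Finset.mem_coe.1 ha)
  exact ⟨hg4 _ (hF₂ a' ha').1, hg6 _ (hF₂ a' ha').2⟩

end Pool.Agent.W4h4.AS
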