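import Pool.Agent.Y167.ConeDef

/-!
# Fibre products of families of abelian varieties with other families: definitions

`X = (Y ×_{Z'} F) / G → Z = Z' / G`, where `Y → Z'` is a projective family of abelian varieties, `F → Z'` a
projective morphism, and `G` a finite group which acts on `Y`, `F` and `Z'`.

The family `Y → Z'` is given by its period data: a real vector space `V` with a lattice `Λ` (the first
homology of the fibres), the set `𝒥` of the complex structures on `V` which are given by the fibres, and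
the set `M` of the automorphisms of `Λ` which are given by the monodromy and by the elements of `G`.

The morphism `F → Z'` is given by the space `N^1(F/Z') = ℝ^ρ`, the cone `A` of its nef and effective
classes, and the action `Θ` of the automorphisms of `F`; here `H` is the group of the automorphisms over
`Z'`, and `Q` the image of `G`.
-/

set_option autoImplicit false

namespace Pool.Agent.W4h4.AS

open Pool.Agent.Y167 (cone)

section Forms

variable {V : Type*} [AddCommGroup V] [Module ℝ V]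

/-- `E` is the first Chern class of an invariant line bundle on the family `Y`: an alternating form which is
integral on the lattice, of type `(1,1)` for the complex structures of all fibres, and invariant under
the monodromy and the group `G`. -/
structure IsForm (Λ : AddSubgroup V) (𝒥 M : Set (Module.End ℝ V)) (E : V → V → ℝ) : Prop where
  add : ∀ x y z, E (x + y) z = E x z + E y z
  smul : ∀ (c : ℝ) (x y : V), E (c • x) y = c * E x y
  alt : ∀ x y, E y x = -E x y
  int : ∀ x ∈ Λ, ∀ y ∈ Λ, ∃ n : ℤ, E x y = n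
  type : ∀ J ∈ 𝒥, ∀ x y, E (J x) (J y) = E x y
  inv : ∀ g ∈ M, ∀ x y, E (g x) (g y) = E x y

/-- The form `E` is positive on all fibres: it is the class of a relatively ample line bundle. -/
def IsPositive (𝒥 : Set (Module.End ℝ V)) (E : V → V → ℝ) : Prop :=
  ∀ J ∈ 𝒥, ∀ x, x ≠ 0 → 0 < E x (J x)

/-- `Λ` is a full lattice in the real vector space `V` of finite dimension, `𝒥` is a nonempty set of
complex structures on `V`, the elements of `M` are automorphisms of `Λ` which permute the elements of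
`𝒥`, and there is a relatively ample line bundle. -/
structure IsFamily (Λ : AddSubgroup V) (𝒥 M : Set (Module.End ℝ V)) : Prop where
  lattice : ∃ (d : ℕ) (b : Module.Basis (Fin d) ℝ V), ∀ x, x ∈ Λ ↔ ∀ i, ∃ n : ℤ, b.repr x i = n
  nonempty : 𝒥.Nonempty
  complex : ∀ J ∈ 𝒥, ∀ x, J (J x) = -x
  monodromy : ∀ g ∈ M, ∃ g' ∈ M, g * g' = 1 ∧ g' * g = 1 ∧ (∀ x ∈ Λ, g x ∈ Λ) ∧
    ∀ J ∈ 𝒥, g * J * g' ∈ 𝒥
  projective : ∃ E, IsForm Λ 𝒥 M E ∧ IsPositive 𝒥 E

/-- The space `N^1(Y/Z')^G` of the invariant numerical classes with real coefficients: the real vector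
space which is spanned by the first Chern classes. -/
def N1s (Λ : AddSubgroup V) (𝒥 M : Set (Module.End ℝ V)) : Submodule ℝ (V → V → ℝ) :=
  Submodule.span ℝ {E | IsForm Λ 𝒥 M E}

/-- The space `N^1(Y/Z')^G` as a type. -/
def N1 (Λ : AddSubgroup V) (𝒥 M : Set (Module.End ℝ V)) : Type _ := N1s Λ 𝒥 M

variable (Λ : AddSubgroup V) (𝒥 M : Set (Module.End ℝ V))

noncomputable instance : AddCommGroup (N1 Λ 𝒥 M) := Submodule.addCommGroup (N1s Λ 𝒥 M)

noncomputable instance : Module ℝ (N1 Λ 𝒥 M) := Submodule.module (N1s Λ 𝒥 M)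

noncomputable instance : TopologicalSpace (N1 Λ 𝒥 M) :=
  instTopologicalSpaceSubtype (p := fun E => E ∈ N1s Λ 𝒥 M)

variable {Λ 𝒥 M}

/-- The form which is the class `x`. -/
def form (x : N1 Λ 𝒥 M) : V → V → ℝ := x.1

variable (Λ 𝒥 M)

/-- The integral classes: the classes of line bundles (up to a bounded multiple). -/
def integral : Set (N1 Λ 𝒥 M) := {x | IsForm Λ 𝒥 M (form x)}

/-- The nef cone of `Y/Z'`: the classes which are nef on all fibres, that is, the forms `E` such that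
`E(v, J v)` is nonnegative for all complex structures `J` of fibres. -/
def nefCone : Set (N1 Λ 𝒥 M) := {x | ∀ J ∈ 𝒥, ∀ v, 0 ≤ form x v (J v)}

/-- The cone `A^e(Y/Z')^G` of the nef and effective classes: the convex cone spanned by the nef integral
classes. (On abelian varieties effective divisors are nef, and nef classes of line bundles are classes
of effective divisors.) -/
def nefEff : Set (N1 Λ 𝒥 M) := {x | ∃ S : Finset (N1 Λ 𝒥 M), ↑S ⊆ integral Λ 𝒥 M ∩ nefCone Λ 𝒥 M ∧
  x ∈ cone S}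

variable {Λ 𝒥 M}

/-- `g` is the pullback by the automorphism `u`. -/
def IsPullback (u : V ≃ₗ[ℝ] V) (g : N1 Λ 𝒥 M ≃ₗ[ℝ] N1 Λ 𝒥 M) : Prop :=
  ∀ x v w, form (g x) v w = form x (u v) (u w)

variable (Λ 𝒥 M)

/-- `u` is an automorphism of the family of abelian varieties over `Z'` which acts trivially on the points
of order `k` and commutes with the linear parts of the elements of `G`: an automorphism of the lattice
which commutes with the complex structures of all fibres and with `M`, and is congruent to the identity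
modulo `k`. -/
structure IsAutLevel (k : ℕ) (u : V ≃ₗ[ℝ] V) : Prop where
  lattice : ∀ x, x ∈ Λ ↔ u x ∈ Λ
  holo : ∀ J ∈ 𝒥, ∀ x, u (J x) = J (u x)
  comm : ∀ g ∈ M, ∀ x, u (g x) = g (u x)
  level : ∀ x ∈ Λ, ∃ y ∈ Λ, u x = x + k • y

/-- The points of `ℝ^ρ` with integral coordinates. -/
def intPts (ρ : ℕ) : Set (Fin ρ → ℝ) := {x | ∀ i, ∃ n : ℤ, x i = n}

/-- The actions of a group on `ℝ^ρ`. -/
abbrev Action (G : Type*) [Group G] (ρ : ℕ) : Type _ := G →* ((Fin ρ → ℝ) ≃ₗ[ℝ] (Fin ρ → ℝ))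

/-- The data of a projective morphism `F → Z'` which satisfies part (1) of the nef cone conjecture.
Here `N^1(F/Z') = ℝ^ρ`, where `ℤ^ρ` is the group of integral classes; `A` is the convex cone `A^e(F/Z')` of
the nef and effective classes, which contains the ample classes, and whose closure contains no line; `Θ`
is the action of a group `G` of automorphisms of `F`, which preserves `ℤ^ρ` and `A`; `H` is the subgroup of
the automorphisms of `F` over `Z'`, and only finitely many elements of it act trivially; `A` is covered by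
the translates of a rational polyhedral cone under `H`; and `Q` is a finite subgroup of `G` which
normalises `H`. -/
structure IsFactor {G : Type*} [Group G] {ρ : ℕ} (Θ : Action G ρ) (A : Set (Fin ρ → ℝ))
    (H Q : Subgroup G) : Prop where
  add : ∀ x ∈ A, ∀ y ∈ A, x + y ∈ A
  smul : ∀ t : ℝ, 0 ≤ t → ∀ x ∈ A, t • x ∈ A
  ample : ∃ y ∈ intPts ρ, ∀ x, ∃ C : ℝ, 0 < C ∧ C • y - x ∈ A
  pointed : ∀ x, x ∈ closure A → -x ∈ closure A → x = 0
  int : ∀ g, ∀ x ∈ intPts ρ, Θ g x ∈ intPts ρ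
  nef_eff : ∀ g, ∀ x ∈ A, Θ g x ∈ A
  kernel : {h | h ∈ H ∧ Θ h = 1}.Finite
  covered : ∃ T : Finset (Fin ρ → ℝ), ↑T ⊆ intPts ρ ∩ A ∧ ∀ x ∈ A, ∃ h ∈ H, Θ h x ∈ cone T
  finite : Finite Q
  normal : ∀ q ∈ Q, ∀ h ∈ H, q * h * q⁻¹ ∈ H

/-- The space `N^1(F/Z')^Q` of the classes which are invariant under the finite group `Q`. -/
def fixed {G : Type*} [Group G] {ρ : ℕ} (Θ : Action G ρ) (Q : Subgroup G) :
    Submodule ℝ (Fin ρ → ℝ) where
  carrier := {x | ∀ q ∈ Q, Θ q x = x}
  add_mem' := fun {x y} hx hy q hq => by rw [map_add, hx q hq, hy q hq]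
  zero_mem' := fun q _ => map_zero _
  smul_mem' := fun c x hx q hq => by rw [map_smul, hx q hq]

/-- The space `N^1(X/Z)` of the quotient `X` of the fibre product `Y ×_{Z'} F` by a finite group: the pairs of
an invariant class on `Y` and an invariant class on `F`. -/
def N1X {G : Type*} [Group G] {ρ : ℕ} (Θ : Action G ρ) (Q : Subgroup G) : Type _ :=
  N1 Λ 𝒥 M × fixed Θ Q

section X

variable {G : Type*} [Group G] {ρ : ℕ} (Θ : Action G ρ) (A : Set (Fin ρ → ℝ)) (H Q : Subgroup G)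

noncomputable instance : AddCommGroup (N1X Λ 𝒥 M Θ Q) :=
  Prod.instAddCommGroup (G := N1 Λ 𝒥 M) (H := fixed Θ Q)

noncomputable instance : Module ℝ (N1X Λ 𝒥 M Θ Q) :=
  Prod.instModule (R := ℝ) (M := N1 Λ 𝒥 M) (N := fixed Θ Q)

noncomputable instance : TopologicalSpace (N1X Λ 𝒥 M Θ Q) :=
  instTopologicalSpaceProd (X := N1 Λ 𝒥 M) (Y := fixed Θ Q)

variable {Λ 𝒥 M Θ Q}

/-- The class on `Y`. -/
def onY (x : N1X Λ 𝒥 M Θ Q) : N1 Λ 𝒥 M := x.1

/-- The class on `F`. -/
def onF (x : N1X Λ 𝒥 M Θ Q) : Fin ρ → ℝ := x.2.1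

/-- `g` is the pair `(u^*, h_*)`, where `u` is an automorphism of `Y`, and `h` an automorphism of `F`. -/
def IsPair (u : V ≃ₗ[ℝ] V) (h : G) (g : N1X Λ 𝒥 M Θ Q → N1X Λ 𝒥 M Θ Q) : Prop :=
  ∀ x, (∀ v w, form (onY (g x)) v w = form (onY x) (u v) (u w)) ∧ onF (g x) = Θ h (onF x)

variable (Λ 𝒥 M Θ Q)

/-- The integral classes in `N^1(X/Z)`. -/
def integralX : Set (N1X Λ 𝒥 M Θ Q) := {x | onY x ∈ integral Λ 𝒥 M ∧ onF x ∈ intPts ρ}

/-- The cone `A^e(X/Z)`. -/
def nefEffX : Set (N1X Λ 𝒥 M Θ Q) := {x | onY x ∈ nefEff Λ 𝒥 M ∧ onF x ∈ A}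

end X

end Forms

section Group

variable {W : Type*} [AddCommGroup W] [Module ℝ W]

/-- The groups of linear automorphisms of the real vector space `W`. -/
abbrev LinGrp (W : Type*) [AddCommGroup W] [Module ℝ W] : Type _ := Subgroup (W ≃ₗ[ℝ] W)

/-- The group `𝒢` maps `A` into itself. -/
def Preserves (𝒢 : LinGrp W) (A : Set W) : Prop := ∀ g ∈ 𝒢, ∀ x ∈ A, g x ∈ A

/-- `P` is a fundamental domain for the action of `𝒢` on `A`: the translates of `P` cover `A`, and a
translate of `P` by `g ≠ 1` does not meet the interior of `P`. -/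
def IsFundDomain [TopologicalSpace W] (𝒢 : LinGrp W) (A P : Set W) : Prop :=
  A = ⋃ g ∈ 𝒢, g '' P ∧ ∀ g ∈ 𝒢, g ≠ 1 → interior P ∩ g '' P = ∅

end Group

/-- `𝒢` is a group of linear automorphisms of `N^1(X/Z)` which preserves the cone `A^e(X/Z)` and a lattice `L`
which is commensurable with the lattice of the integral classes; for example `L` is the group of the
classes of line bundles on `X`, which is preserved by all automorphisms of `X/Z`. It contains the pairs
`(u^*, h_*)`, where `u` is an automorphism of level `k` of the family `Y` of abelian varieties (see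
`IsAutLevel`), and `h` is an automorphism of `F` over `Z'` which commutes with the elements of `Q`. -/
structure IsAutGroup {V : Type*} [AddCommGroup V] [Module ℝ V] {Λ : AddSubgroup V}
    {𝒥 M : Set (Module.End ℝ V)} {G : Type*} [Group G] {ρ : ℕ} {Θ : Action G ρ}
    (A : Set (Fin ρ → ℝ)) (H : Subgroup G) {Q : Subgroup G} (k : ℕ)
    (𝒢 : LinGrp (N1X Λ 𝒥 M Θ Q)) : Prop where
  int : ∃ (m : ℕ) (L : AddSubgroup (N1X Λ 𝒥 M Θ Q)), 0 < m ∧
    (∀ x ∈ integralX Λ 𝒥 M Θ Q, (m : ℝ) • x ∈ L) ∧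
    (∀ x ∈ L, (m : ℝ) • x ∈ integralX Λ 𝒥 M Θ Q) ∧ Preserves 𝒢 (L : Set (N1X Λ 𝒥 M Θ Q))
  nef_eff : Preserves 𝒢 (nefEffX Λ 𝒥 M Θ A Q)
  aut : ∀ u, IsAutLevel Λ 𝒥 M k u → ∀ h ∈ H, (∀ q ∈ Q, h * q = q * h) →
    ∀ g : N1X Λ 𝒥 M Θ Q ≃ₗ[ℝ] N1X Λ 𝒥 M Θ Q, IsPair u h g → g ∈ 𝒢

/-- `𝒢` acts on `A^e(X/Z)` with a rational polyhedral fundamental domain, which is spanned by the finite
set `S` of integral classes. -/
def HasDomain {V : Type*} [AddCommGroup V] [Module ℝ V] {Λ : AddSubgroup V}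
    {𝒥 M : Set (Module.End ℝ V)} {G : Type*} [Group G] {ρ : ℕ} {Θ : Action G ρ}
    (A : Set (Fin ρ → ℝ)) {Q : Subgroup G} (𝒢 : LinGrp (N1X Λ 𝒥 M Θ Q)) : Prop :=
  ∃ S : Finset (N1X Λ 𝒥 M Θ Q), ↑S ⊆ integralX Λ 𝒥 M Θ Q ∧ cone S ⊆ nefEffX Λ 𝒥 M Θ A Q ∧
    IsFundDomain 𝒢 (nefEffX Λ 𝒥 M Θ A Q) (cone S)

end Pool.Agent.W4h4.AS
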