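import Pool.Agent.W4h4.AS.Defs
import Pool.Agent.W4h4.NR.Cone
import Pool.Agent.X324.CF.Dom2

/-!
# The cone of classes of the second factor
-/

set_option autoImplicit false

namespace Pool.Agent.W4h4.AS

open Finset Filter Topology
open Pool.Agent.Y167 (cone CData)
open Pool.Agent.X324.CF (rv dot rv_apply dot_int exists_Y Cl)
open Pool.Agent.W4h4.NR (exists_int_form)

variable {ρ : ℕ}

/-- The integral classes as a group. -/
def intZ (ρ : ℕ) : AddSubgroup (Fin ρ → ℝ) where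
  carrier := intPts ρ
  add_mem' := by
    intro x y hx hy i
    obtain ⟨m, hm⟩ := hx i
    obtain ⟨n, hn⟩ := hy i
    exact ⟨m + n, by rw [Pi.add_apply, hm, hn]; push_cast; rfl⟩
  zero_mem' := fun i => ⟨0, by simp⟩
  neg_mem' := by
    intro x hx i
    obtain ⟨m, hm⟩ := hx i
    exact ⟨-m, by rw [Pi.neg_apply, hm]; push_cast; rfl⟩

theorem exists_rv {x : Fin ρ → ℝ} (hx : x ∈ intPts ρ) : ∃ β : Cl ρ, x = rv β := by
  choose n hn using hx
  exact ⟨n, funext hn⟩

theorem span_intZ : Submodule.span ℝ (intZ ρ : Set (Fin ρ → ℝ)) = ⊤ := by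
  classical
  rw [eq_top_iff]
  rintro b -
  rw [← Finset.univ_sum_single b]
  refine Submodule.sum_mem _ fun k _ => ?_
  have h2 : (Pi.single k (b k) : Fin ρ → ℝ) = b k • Pi.single k (1 : ℝ) := by
    rw [← Pi.single_smul, smul_eq_mul, mul_one]
  rw [h2]
  refine Submodule.smul_mem _ _ (Submodule.subset_span fun i => ?_)
  by_cases hik : i = k
  · subst hik
    exact ⟨1, by simp⟩
  · exact ⟨0, by rw [Pi.single_eq_of_ne hik]; simp⟩

/-- The data for the cone `A`. -/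
theorem cdataA {G : Type*} [Group G] {Θ : Action G ρ} {A : Set (Fin ρ → ℝ)} {H Q : Subgroup G}
    (hA : IsFactor Θ A H Q) : ∃ (ξ : (Fin ρ → ℝ) →ₗ[ℝ] ℝ) (y : Fin ρ → ℝ) (Y : Finset (Fin ρ → ℝ)),
      CData (intZ ρ) A ξ y Y := by
  classical
  obtain ⟨y, yL, yint⟩ := hA.ample
  have yK : y ∈ A := by
    obtain ⟨C, hC, h1⟩ := yint 0
    rw [sub_zero] at h1
    have h2 := hA.smul _ (inv_nonneg.2 hC.le) _ h1
    rwa [smul_smul, inv_mul_cancel₀ hC.ne', one_smul] at h2
  have hzero : (0 : Fin ρ → ℝ) ∈ A := by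
    have h1 := hA.smul 0 le_rfl y yK
    rwa [zero_smul] at h1
  obtain ⟨z, hz'⟩ := exists_int_form (K := closure A) isClosed_closure (subset_closure hzero)
    (fun a ha b hb => map_mem_closure₂ continuous_add ha hb fun x hx y hy => hA.add x hx y hy)
    (fun t ht a ha => map_mem_closure (continuous_const_smul t) ha fun x hx => hA.smul t ht x hx)
    (fun x h1 h2 => hA.pointed x h1 h2)
  have hz : ∀ x ∈ A, ‖x‖ ≤ dot (rv z) x := fun x hx => hz' x (subset_closure hx)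
  obtain ⟨Y, hY1, hY2⟩ := exists_Y (L := intZ ρ) hA.add hA.smul yL yK yint span_intZ
  refine ⟨dot (rv z), y, Y,
    { add := hA.add
      smul := hA.smul
      xi_int := fun b hb => ?_
      xi_pos := fun b hb hb0 => ?_
      fin := fun C => ?_
      y_L := yL
      y_N := yK
      y_int := yint
      dom := fun η => ?_
      sep := fun b hb => ?_
      Y_mem := hY1
      Y_span := hY2 }⟩
  · obtain ⟨β, rfl⟩ := exists_rv hb
    rw [dot_int]
    exact ⟨_, rfl⟩
  · exact lt_of_lt_of_le (norm_pos_iff.2 hb0) (hz _ hb)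
  · have hfin : (Set.Icc (fun _ : Fin ρ => -⌈C⌉) (fun _ => ⌈C⌉)).Finite := Set.finite_Icc _ _
    refine (hfin.image (rv : Cl ρ → Fin ρ → ℝ)).subset ?_
    rintro b ⟨hb1, hb2, hb3⟩
    obtain ⟨β, rfl⟩ := exists_rv hb1
    have h2 : ‖rv β‖ ≤ C := (hz _ hb2).trans hb3
    have h4 : ∀ k, |(β k : ℝ)| ≤ C := by
      intro k
      have h5 := (norm_le_pi_norm (rv β) k).trans h2
      rwa [rv_apply, Real.norm_eq_abs] at h5
    refine ⟨β, ⟨fun k => ?_, fun k => ?_⟩, rfl⟩
    · have h5 := (abs_le.1 (h4 k)).1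
      have h6 : (-(⌈C⌉ : ℝ)) ≤ β k := le_trans (neg_le_neg (Int.le_ceil C)) h5
      exact_mod_cast h6
    · have h5 := (abs_le.1 (h4 k)).2
      have h6 : (β k : ℝ) ≤ ⌈C⌉ := h5.trans (Int.le_ceil C)
      exact_mod_cast h6
  · have hc : Continuous η := η.continuous_of_finiteDimensional
    let η' : (Fin ρ → ℝ) →L[ℝ] ℝ := ⟨η, hc⟩
    refine ⟨‖η'‖, fun b hb => ?_⟩
    have h1 : ‖η' b‖ ≤ ‖η'‖ * ‖b‖ := η'.le_opNorm b
    refine h1.trans ?_
    exact mul_le_mul_of_nonneg_left (hz _ hb) (norm_nonneg η')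
  · have h1 : ∃ k, b k ≠ 0 := by
      by_contra hcon
      push Not at hcon
      exact hb (funext hcon)
    obtain ⟨k, hk⟩ := h1
    exact ⟨LinearMap.proj k, fun y hy => hy k, hk⟩

end Pool.Agent.W4h4.AS
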