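import Pool.Agent.W4h4.AS.Factor
import Pool.Agent.W4h4.NR.Descent

/-!
# The invariant classes of the second factor
-/

set_option autoImplicit false

namespace Pool.Agent.W4h4.AS

open Finset Filter Topology
open Pool.Agent.Y167 (cone CData Cp mem_cone_of_sum cone_image)
open Pool.Agent.X324.CF (exists_Y)
open Pool.Agent.W4h4.NR (descent nm nm_apply nm_fixed nm_of_fixed fixed_mem_cone)

variable {ρ : ℕ} {G : Type*} [Group G] {Θ : Action G ρ} {A : Set (Fin ρ → ℝ)} {H Q : Subgroup G}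

theorem mem_fixed {x : Fin ρ → ℝ} : x ∈ fixed Θ Q ↔ ∀ q ∈ Q, Θ q x = x := Iff.rfl

/-- The integral invariant classes. -/
def intQ (Θ : Action G ρ) (Q : Subgroup G) : AddSubgroup (fixed Θ Q) :=
  (intZ ρ).comap (fixed Θ Q).subtype.toAddMonoidHom

theorem mem_intQ {x : fixed Θ Q} : x ∈ intQ Θ Q ↔ x.1 ∈ intPts ρ := Iff.rfl

theorem cone_sub {W : Type*} [AddCommGroup W] [Module ℝ W] {B : Submodule ℝ W} [DecidableEq B]
    {S : Finset W} (hS : ∀ a ∈ S, a ∈ B) {x : B} (hx : x.1 ∈ cone S) :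
    x ∈ cone (S.attach.image fun a => (⟨a.1, hS a.1 a.2⟩ : B)) := by
  obtain ⟨c, hc, h⟩ := hx
  have h1 : x = ∑ a ∈ S.attach, c a.1 • (⟨a.1, hS a.1 a.2⟩ : B) := by
    apply Subtype.ext
    rw [Submodule.coe_sum, h, ← Finset.sum_attach]
    rfl
  rw [h1]
  exact mem_cone_of_sum _ _ _ (fun a ha => Finset.mem_image_of_mem _ ha) (fun a _ => hc a.1)

theorem IsFactor.zero (hA : IsFactor Θ A H Q) : (0 : Fin ρ → ℝ) ∈ A := by
  obtain ⟨y, -, h⟩ := hA.ample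
  obtain ⟨C, -, h1⟩ := h 0
  have h2 := hA.smul 0 le_rfl _ h1
  rwa [zero_smul] at h2

theorem IsFactor.sum (hA : IsFactor Θ A H Q) {ι : Type*} (s : Finset ι) (f : ι → Fin ρ → ℝ)
    (h : ∀ i ∈ s, f i ∈ A) : ∑ i ∈ s, f i ∈ A := by
  classical
  induction s using Finset.induction_on with
  | empty => rw [Finset.sum_empty]; exact hA.zero
  | insert i s hi ih =>
    rw [Finset.sum_insert hi]
    exact hA.add _ (h i (Finset.mem_insert_self _ _)) _
      (ih fun j hj => h j (Finset.mem_insert_of_mem hj))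

theorem cone_A (hA : IsFactor Θ A H Q) {S : Finset (Fin ρ → ℝ)} (hS : ∀ a ∈ S, a ∈ A)
    {x : Fin ρ → ℝ} (hx : x ∈ cone S) : x ∈ A := by
  obtain ⟨c, hc, rfl⟩ := hx
  exact hA.sum _ _ fun a ha => hA.smul _ (hc a) _ (hS a ha)

/-- **The invariant classes.** The automorphisms which commute with the finite group `Q` move the
invariant interior classes into a finitely generated cone of invariant classes. -/
theorem coverQ (hA : IsFactor Θ A H Q) : ∃ (ξ : fixed Θ Q →ₗ[ℝ] ℝ) (y : fixed Θ Q)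
    (Y T : Finset (fixed Θ Q)), CData (intQ Θ Q) {x | x.1 ∈ A} ξ y Y ∧
      (∀ a ∈ T, a ∈ intQ Θ Q ∧ a.1 ∈ A) ∧
      (∀ x : fixed Θ Q, (∃ t : ℝ, 0 < t ∧ (x - t • y).1 ∈ A) → ∃ h ∈ H, (∀ q ∈ Q, h * q = q * h) ∧
        ∃ τ : fixed Θ Q ≃ₗ[ℝ] fixed Θ Q, (∀ x, (τ x).1 = Θ h x.1) ∧ τ x ∈ cone T) ∧
      ∀ x : fixed Θ Q, x.1 ∈ A → x ∈ Cp (intQ Θ Q) {x | x.1 ∈ A} := by
  classical
  have hfin : Finite Q := hA.finite
  have : Fintype Q := Fintype.ofFinite Q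
  obtain ⟨ξ, y, Y, D⟩ := cdataA hA
  obtain ⟨T, hT, hTc⟩ := hA.covered
  have hc0 : (0 : ℝ) < Fintype.card Q := by exact_mod_cast Fintype.card_pos
  have hnmA : ∀ a ∈ A, nm Θ Q a ∈ A := by
    intro a ha
    rw [nm_apply]
    exact hA.sum _ _ fun q _ => hA.nef_eff _ a ha
  have hnmL : ∀ a ∈ intPts ρ, nm Θ Q a ∈ intPts ρ := by
    intro a ha
    rw [nm_apply]
    exact (intZ ρ).sum_mem fun q _ => hA.int _ a ha
  have hnmF : ∀ a, nm Θ Q a ∈ fixed Θ Q := fun a q hq => nm_fixed Θ Q a hq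
  -- the interior point
  let y' : fixed Θ Q := ⟨nm Θ Q y, hnmF y⟩
  have hyy : y'.1 - y ∈ A := by
    change nm Θ Q y - y ∈ A
    have h1 : nm Θ Q y = Θ ((1 : Q) : G) y + ∑ q ∈ Finset.univ.erase (1 : Q), Θ q y := by
      rw [nm_apply, Finset.add_sum_erase _ (fun q : Q => Θ q y) (Finset.mem_univ _)]
    have h2 : Θ ((1 : Q) : G) y = y := by
      rw [Subgroup.coe_one, map_one]
      rfl
    rw [h1, h2, add_sub_cancel_left]
    exact hA.sum _ _ fun q _ => hA.nef_eff _ y D.y_N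
  have yint : ∀ x : fixed Θ Q, ∃ C : ℝ, 0 < C ∧ C • y' - x ∈ {x : fixed Θ Q | x.1 ∈ A} := by
    intro x
    obtain ⟨C, hC, h1⟩ := D.y_int x.1
    refine ⟨C / Fintype.card Q, by positivity, ?_⟩
    have h2 := hA.smul _ (inv_nonneg.2 hc0.le) _ (hnmA _ h1)
    rw [map_sub, map_smul, nm_of_fixed Θ Q x.2, smul_sub, smul_smul, smul_smul,
      inv_mul_cancel₀ hc0.ne', one_smul] at h2
    change (C / Fintype.card Q) • nm Θ Q y - x.1 ∈ A
    rwa [div_eq_inv_mul]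
  have hadd : ∀ x ∈ {x : fixed Θ Q | x.1 ∈ A}, ∀ z ∈ {x : fixed Θ Q | x.1 ∈ A},
      x + z ∈ {x : fixed Θ Q | x.1 ∈ A} := fun x hx z hz => hA.add _ hx _ hz
  have hsmul : ∀ t : ℝ, 0 ≤ t → ∀ x ∈ {x : fixed Θ Q | x.1 ∈ A},
      t • x ∈ {x : fixed Θ Q | x.1 ∈ A} := fun t ht x hx => hA.smul t ht _ hx
  have yL : y' ∈ intQ Θ Q := hnmL y D.y_L
  have yN : y' ∈ {x : fixed Θ Q | x.1 ∈ A} := hnmA y D.y_N
  have hspan : Submodule.span ℝ (intQ Θ Q : Set (fixed Θ Q)) = ⊤ := by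
    rw [eq_top_iff]
    rintro x -
    have h1 : x = (Fintype.card Q : ℝ)⁻¹ • ∑ k, x.1 k • (⟨nm Θ Q (Pi.single k 1), hnmF _⟩ : fixed Θ Q) := by
      apply Subtype.ext
      rw [Submodule.coe_smul, Submodule.coe_sum]
      have h2 : nm Θ Q x.1 = ∑ k, x.1 k • nm Θ Q (Pi.single k 1) := by
        conv_lhs => rw [← Finset.univ_sum_single x.1]
        rw [map_sum]
        refine Finset.sum_congr rfl fun k _ => ?_
        have h3 : (Pi.single k (x.1 k) : Fin ρ → ℝ) = x.1 k • Pi.single k (1 : ℝ) := by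
          rw [← Pi.single_smul, smul_eq_mul, mul_one]
        rw [h3, map_smul]
      change x.1 = (Fintype.card Q : ℝ)⁻¹ • ∑ k, x.1 k • nm Θ Q (Pi.single k 1)
      rw [← h2, nm_of_fixed Θ Q x.2, smul_smul, inv_mul_cancel₀ hc0.ne', one_smul]
    rw [h1]
    refine Submodule.smul_mem _ _ (Submodule.sum_mem _ fun k _ => Submodule.smul_mem _ _
      (Submodule.subset_span ?_))
    refine hnmL _ fun i => ?_
    by_cases hik : i = k
    · subst hik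
      exact ⟨1, by simp⟩
    · exact ⟨0, by rw [Pi.single_eq_of_ne hik]; simp⟩
  obtain ⟨Y', hY1, hY2⟩ := exists_Y (L := intQ Θ Q) hadd hsmul yL yN yint hspan
  -- the covering
  obtain ⟨T₀, hT₀, -, hT₀c⟩ := descent D Θ (fun g x hx => hA.int g x hx)
    (fun g x hx => hA.nef_eff g x hx) H Q ⊥ hA.normal
    (fun s hs => by rw [Subgroup.mem_bot.1 hs, map_one])
    (fun g s hs => by
      rw [Subgroup.mem_bot.1 hs, mul_one, mul_inv_cancel]
      exact Subgroup.one_mem _)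
    ⟨{h | h ∈ H ∧ Θ h = 1}, hA.kernel, fun h hh h1 => ⟨h, ⟨hh, h1⟩, by
      rw [inv_mul_cancel]
      exact Subgroup.one_mem _⟩⟩
    T (fun a ha => hT ha)
    (fun x hx => by
      obtain ⟨t, ht, hx⟩ := hx
      have h1 := hA.add _ hx _ (hA.smul t ht.le _ D.y_N)
      rw [sub_add_cancel] at h1
      exact hTc x h1)
  have hT₀F : ∀ a ∈ T₀, a ∈ fixed Θ Q := fun a ha => (hT₀ a ha).2.2
  refine ⟨ξ ∘ₗ (fixed Θ Q).subtype, y', Y', T₀.attach.image fun a => ⟨a.1, hT₀F a.1 a.2⟩, ?_, ?_, ?_, ?_⟩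
  · refine
      { add := hadd
        smul := hsmul
        xi_int := fun x hx => D.xi_int x.1 hx
        xi_pos := fun x hx hx0 => D.xi_pos x.1 hx fun h => hx0 (Subtype.ext h)
        fin := fun C => ?_
        y_L := yL
        y_N := yN
        y_int := yint
        dom := fun η => ?_
        sep := fun x hx => ?_
        Y_mem := hY1
        Y_span := hY2 }
    · refine ((D.fin C).preimage (f := fun x : fixed Θ Q => x.1)
        Subtype.val_injective.injOn).subset ?_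
      rintro x ⟨h1, h2, h3⟩
      exact ⟨h1, h2, h3⟩
    · obtain ⟨η', hη⟩ := LinearMap.exists_extend η
      obtain ⟨C, hC⟩ := D.dom η'
      refine ⟨C, fun x hx => ?_⟩
      have h1 : η x = η' x.1 := by
        rw [← hη]
        rfl
      rw [h1]
      exact hC x.1 hx
    · obtain ⟨η, h1, h2⟩ := D.sep x.1 fun h => hx (Subtype.ext h)
      exact ⟨η ∘ₗ (fixed Θ Q).subtype, fun z hz => h1 z.1 hz, h2⟩
  · intro a ha
    obtain ⟨b, -, rfl⟩ := Finset.mem_image.1 ha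
    obtain ⟨h1, h2, -⟩ := hT₀ b.1 b.2
    exact ⟨h1, h2⟩
  · rintro x ⟨t, ht, hx⟩
    have hx' : x.1 - t • y'.1 ∈ A := hx
    obtain ⟨z, hz, hzc, hzx⟩ := hT₀c x.1 ⟨t, ht, by
      have h1 := hA.add _ hx' _ (hA.smul t ht.le _ hyy)
      have h2 : x.1 - t • y'.1 + t • (y'.1 - y) = x.1 - t • y := by module
      rwa [h2] at h1⟩ x.2
    have hcomm : ∀ q ∈ Q, z * q = q * z := by
      intro q hq
      obtain ⟨s, hs, h1⟩ := hzc q hq
      rw [Subgroup.mem_bot.1 hs, mul_one] at h1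
      exact mul_inv_eq_iff_eq_mul.1 h1
    have hfix : ∀ w : G, (∀ q ∈ Q, w * q = q * w) → ∀ a ∈ fixed Θ Q, Θ w a ∈ fixed Θ Q := by
      intro w hw a ha q hq
      change (Θ q * Θ w) a = Θ w a
      rw [← map_mul, ← hw q hq, map_mul]
      change Θ w (Θ q a) = _
      rw [ha q hq]
    have hcomm' : ∀ q ∈ Q, z⁻¹ * q = q * z⁻¹ := by
      intro q hq
      have h1 := hcomm q hq
      rw [inv_mul_eq_iff_eq_mul, ← mul_assoc, h1, mul_inv_cancel_right]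
    let τ : fixed Θ Q ≃ₗ[ℝ] fixed Θ Q :=
      { toFun := fun a => ⟨Θ z a.1, hfix z hcomm a.1 a.2⟩
        map_add' := fun a c => Subtype.ext (map_add _ _ _)
        map_smul' := fun c a => Subtype.ext (map_smul _ _ _)
        invFun := fun a => ⟨Θ z⁻¹ a.1, hfix z⁻¹ hcomm' a.1 a.2⟩
        left_inv := fun a => Subtype.ext (by
          change (Θ z⁻¹ * Θ z) a.1 = a.1
          rw [← map_mul, inv_mul_cancel, map_one]
          rfl)
        right_inv := fun a => Subtype.ext (by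
          change (Θ z * Θ z⁻¹) a.1 = a.1
          rw [← map_mul, mul_inv_cancel, map_one]
          rfl) }
    refine ⟨z, hz, hcomm, τ, fun a => rfl, ?_⟩
    exact cone_sub hT₀F (x := τ x) hzx
  · intro x hx
    obtain ⟨h, hh, hhx⟩ := hTc x.1 hx
    have h1 := cone_image ((Θ h⁻¹ : (Fin ρ → ℝ) ≃ₗ[ℝ] (Fin ρ → ℝ)) : (Fin ρ → ℝ) →ₗ[ℝ] (Fin ρ → ℝ)) hhx
    have h2 : ((Θ h⁻¹ : (Fin ρ → ℝ) ≃ₗ[ℝ] (Fin ρ → ℝ)) : (Fin ρ → ℝ) →ₗ[ℝ] (Fin ρ → ℝ)) (Θ h x.1)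
        = x.1 := by
      change (Θ h⁻¹ * Θ h) x.1 = x.1
      rw [← map_mul, inv_mul_cancel, map_one]
      rfl
    rw [h2] at h1
    have h3 := fixed_mem_cone Θ Q x.2 h1
    have h4 : ∀ a ∈ (T.image ((Θ h⁻¹ : (Fin ρ → ℝ) ≃ₗ[ℝ] (Fin ρ → ℝ)) :
        (Fin ρ → ℝ) →ₗ[ℝ] (Fin ρ → ℝ))).image (nm Θ Q), a ∈ fixed Θ Q ∧ a ∈ intPts ρ ∧ a ∈ A := by
      intro a ha
      obtain ⟨c, hc, rfl⟩ := Finset.mem_image.1 ha
      obtain ⟨e, he, rfl⟩ := Finset.mem_image.1 hc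
      obtain ⟨h5, h6⟩ := hT he
      exact ⟨hnmF _, hnmL _ (hA.int _ e h5), hnmA _ (hA.nef_eff _ e h6)⟩
    refine ⟨_, ?_, cone_sub (fun a ha => (h4 a ha).1) h3⟩
    intro a ha
    obtain ⟨c, -, rfl⟩ := Finset.mem_image.1 ha
    exact ⟨(h4 c.1 c.2).2.1, (h4 c.1 c.2).2.2⟩

end Pool.Agent.W4h4.AS
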