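import Pool.Agent.W4h4.AS.Cover
import Pool.Agent.W4h4.AS.Fix

/-!
# The nef cone conjecture for fibre products with families of abelian varieties
-/

set_option autoImplicit false

namespace Pool.Agent.W4h4.AS

open Finset Filter Topology
open Pool.Agent.Y167 (Sys cone CData Cp cone_ind cone_le cone_image mem_cone_self mem_cone_of_sum
  cone_smul cone_add cone_mono)
open Pool.Agent.X324.CF (cdata_prod)
open Pool.Agent.W4h4.NR (cdata_mono)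

theorem cone_pair {W₁ W₂ : Type*} [AddCommGroup W₁] [Module ℝ W₁] [AddCommGroup W₂] [Module ℝ W₂]
    [DecidableEq (W₁ × W₂)] {F : Finset W₁} {T : Finset W₂} {x : W₁ × W₂}
    (h1 : x.1 ∈ cone F) (h2 : x.2 ∈ cone T) :
    x ∈ cone (F.image (LinearMap.inl ℝ W₁ W₂) ∪ T.image (LinearMap.inr ℝ W₁ W₂)) := by
  have h3 := cone_image (LinearMap.inl ℝ W₁ W₂) h1
  have h4 := cone_image (LinearMap.inr ℝ W₁ W₂) h2
  have h5 : x = LinearMap.inl ℝ W₁ W₂ x.1 + LinearMap.inr ℝ W₁ W₂ x.2 := by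
    rw [LinearMap.inl_apply, LinearMap.inr_apply, Prod.mk_add_mk, add_zero, zero_add]
  rw [h5]
  exact cone_add (cone_mono Finset.subset_union_left h3) (cone_mono Finset.subset_union_right h4)

/-- The data for a commensurable lattice. -/
theorem cdata_comm {W : Type*} [AddCommGroup W] [Module ℝ W] [DecidableEq W]
    {L L' : AddSubgroup W} {K : Set W} {ξ : W →ₗ[ℝ] ℝ} {y : W} {Y : Finset W}
    (D : CData L K ξ y Y) {m : ℕ} (hm : 0 < m) (h1 : ∀ x ∈ L, (m : ℝ) • x ∈ L')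
    (h2 : ∀ x ∈ L', (m : ℝ) • x ∈ L) :
    CData L' K ((m : ℝ) • ξ) ((m : ℝ) • y) (Y.image fun x => (m : ℝ) • x) := by
  have hmr : (0 : ℝ) < m := by exact_mod_cast hm
  refine
    { add := D.add
      smul := D.smul
      xi_int := fun x hx => ?_
      xi_pos := fun x hx h0 => ?_
      fin := fun C => ?_
      y_L := h1 _ D.y_L
      y_N := D.smul _ hmr.le _ D.y_N
      y_int := fun x => ?_
      dom := fun η => ?_
      sep := fun x hx => ?_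
      Y_mem := fun z hz => ?_
      Y_span := fun φ hφ => ?_ }
  · obtain ⟨n, hn⟩ := D.xi_int _ (h2 x hx)
    refine ⟨n, ?_⟩
    rw [← hn, map_smul]
    rfl
  · exact mul_pos hmr (D.xi_pos x hx h0)
  · refine Set.Finite.of_finite_image (f := fun x => (m : ℝ) • x) ((D.fin C).subset ?_)
      ((smul_right_injective W hmr.ne').injOn)
    rintro _ ⟨x, ⟨hx1, hx2, hx3⟩, rfl⟩
    refine ⟨h2 x hx1, D.smul _ hmr.le _ hx2, ?_⟩
    rw [map_smul]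
    exact hx3
  · obtain ⟨C, hC, h3⟩ := D.y_int x
    refine ⟨C / m, by positivity, ?_⟩
    rw [smul_smul, div_mul_cancel₀ _ hmr.ne']
    exact h3
  · obtain ⟨C, hC⟩ := D.dom η
    refine ⟨C / m, fun x hx => ?_⟩
    refine (hC x hx).trans (le_of_eq ?_)
    change C * ξ x = C / m * (m * ξ x)
    field_simp
  · obtain ⟨η, h3, h4⟩ := D.sep x hx
    refine ⟨(m : ℝ) • η, fun z hz => ?_, mul_ne_zero hmr.ne' h4⟩
    obtain ⟨n, hn⟩ := h3 _ (h2 z hz)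
    refine ⟨n, ?_⟩
    rw [← hn, map_smul]
    rfl
  · obtain ⟨x, hx, rfl⟩ := Finset.mem_image.1 hz
    obtain ⟨h3, h4⟩ := D.Y_mem x hx
    exact ⟨h1 _ h3, D.smul _ hmr.le _ h4⟩
  · refine D.Y_span φ fun x hx => ?_
    have h3 := hφ _ (Finset.mem_image_of_mem _ hx)
    rw [map_smul] at h3
    exact (smul_eq_zero.1 h3).resolve_left hmr.ne'

theorem cone_scale {W : Type*} [AddCommGroup W] [Module ℝ W] [DecidableEq W] {m : ℝ} (hm : 0 < m)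
    (S : Finset W) : cone (S.image fun a => m • a) = cone S := by
  ext x
  constructor
  · refine fun h => cone_le (fun a ha => ?_) h
    obtain ⟨a', ha', rfl⟩ := Finset.mem_image.1 ha
    exact cone_smul (mem_cone_self ha') hm.le
  · refine fun h => cone_le (fun a ha => ?_) h
    have h1 : m • a ∈ S.image fun a => m • a := Finset.mem_image_of_mem (fun a => m • a) ha
    have h2 := cone_smul (mem_cone_self h1) (inv_nonneg.2 hm.le)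
    rwa [smul_smul, inv_mul_cancel₀ hm.ne', one_smul] at h2

variable {V : Type*} [AddCommGroup V] [Module ℝ V]

variable {Λ : AddSubgroup V} {𝒥 M : Set (Module.End ℝ V)} {ρ : ℕ}

/-- The cone `A^e(X/Z)` in the product. -/
def NEP (Λ : AddSubgroup V) (𝒥 M : Set (Module.End ℝ V)) {G : Type*} [Group G] (Θ : Action G ρ)
    (A : Set (Fin ρ → ℝ)) (Q : Subgroup G) : Set (N1 Λ 𝒥 M × fixed Θ Q) :=
  {x | x.1 ∈ nefEff Λ 𝒥 M ∧ x.2.1 ∈ A}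

/-- The nef cone conjecture for fibre products with families of abelian varieties, in the product. -/
theorem main₀ (h : IsFamily Λ 𝒥 M) {k : ℕ} (hk : 0 < k) {G : Type*} [Group G] {Θ : Action G ρ}
    {A : Set (Fin ρ → ℝ)} {H Q : Subgroup G} (hA : IsFactor Θ A H Q)
    (𝒢 : LinGrp (N1 Λ 𝒥 M × fixed Θ Q))
    {m : ℕ} (hm : 0 < m) (L : AddSubgroup (N1 Λ 𝒥 M × fixed Θ Q))
    (hL1 : ∀ x : N1 Λ 𝒥 M × fixed Θ Q, x.1 ∈ integral Λ 𝒥 M → x.2.1 ∈ intPts ρ → (m : ℝ) • x ∈ L)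
    (hL2 : ∀ x ∈ L, ((m : ℝ) • x).1 ∈ integral Λ 𝒥 M ∧ ((m : ℝ) • x).2.1 ∈ intPts ρ)
    (hint : ∀ g ∈ 𝒢, ∀ x ∈ L, g x ∈ L)
    (hnef : ∀ g ∈ 𝒢, ∀ x ∈ NEP Λ 𝒥 M Θ A Q, g x ∈ NEP Λ 𝒥 M Θ A Q)
    (haut : ∀ u, IsAutLevel Λ 𝒥 M k u → ∀ g : N1 Λ 𝒥 M ≃ₗ[ℝ] N1 Λ 𝒥 M, IsPullback u g →
      ∀ h ∈ H, (∀ q ∈ Q, h * q = q * h) → ∀ τ : fixed Θ Q ≃ₗ[ℝ] fixed Θ Q,
        (∀ x, (τ x).1 = Θ h x.1) → g.prodCongr τ ∈ 𝒢) :
    ∃ S : Finset (N1 Λ 𝒥 M × fixed Θ Q), (∀ a ∈ S, a.1 ∈ integral Λ 𝒥 M ∧ a.2.1 ∈ intPts ρ) ∧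
      cone S ⊆ NEP Λ 𝒥 M Θ A Q ∧ IsFundDomain 𝒢 (NEP Λ 𝒥 M Θ A Q) (cone S) := by
  classical
  obtain ⟨ξ₁, y₁, Y₁, F, D₁, hF, hcov⟩ := cover h hk
  obtain ⟨ξ₂, y₂, Y₂, T, D₂, hT, hTc, hTA⟩ := coverQ hA
  have hA0 := hA.zero
  have hN0 : (0 : N1 Λ 𝒥 M) ∈ nefEff Λ 𝒥 M := nefEff_of_int (intL Λ 𝒥 M).zero_mem
    (fun J hJ v => le_refl (0 : ℝ))
  obtain ⟨ξ, Y, D₃⟩ := cdata_prod (L := (intL Λ 𝒥 M).prod (intQ Θ Q)) D₁ D₂
    (LinearMap.fst ℝ _ _) (LinearMap.snd ℝ _ _) (LinearMap.inl ℝ _ _) (LinearMap.inr ℝ _ _)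
    (fun a => rfl) (fun a => rfl) (fun b => rfl) (fun b => rfl)
    (fun x => by
      rw [LinearMap.inl_apply, LinearMap.inr_apply, LinearMap.fst_apply, LinearMap.snd_apply,
        Prod.mk_add_mk, add_zero, zero_add]) (k := 1) one_pos
    (fun x hx => hx.1) (fun x hx => hx.2)
    (fun a ha => by
      rw [Nat.cast_one, one_smul]
      exact ⟨ha, (intQ Θ Q).zero_mem⟩)
    (fun b hb => by
      rw [Nat.cast_one, one_smul]
      exact ⟨(intL Λ 𝒥 M).zero_mem, hb⟩)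
  rw [Nat.cast_one, one_smul] at D₃
  set y₀ : (N1 Λ 𝒥 M × fixed Θ Q) := LinearMap.inl ℝ _ _ y₁ + LinearMap.inr ℝ _ _ y₂ with hy₀
  have hy1 : y₀.1 = y₁ := by
    change y₁ + 0 = y₁
    rw [add_zero]
  have hy2 : y₀.2 = y₂ := by
    change 0 + y₂ = y₂
    rw [zero_add]
  have hmem2 : ∀ (x : fixed Θ Q) (t : ℝ), 0 < t → (x - t • y₂).1 ∈ A → x.1 ∈ A := by
    intro x t ht hx
    have hx' : x.1 - t • y₂.1 ∈ A := hx
    have h3 := hA.add _ hx' _ (hA.smul t ht.le _ D₂.y_N)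
    rwa [sub_add_cancel] at h3
  obtain ⟨Y', D⟩ := cdata_mono D₃ (K' := NEP Λ 𝒥 M Θ A Q)
    (fun x hx => ⟨nefEff_nef hx.1, hx.2⟩)
    (fun x hx y hy => ⟨nefEff_add hx.1 hy.1, hA.add _ hx.2 _ hy.2⟩)
    (fun t ht x hx => ⟨nefEff_smul ht hx.1, hA.smul t ht _ hx.2⟩)
    (by
      rintro x ⟨t, ht, hx1, hx2⟩
      have h1 : x.1 - t • y₁ ∈ nefCone Λ 𝒥 M := by
        rw [← hy1]
        exact hx1
      have h2 : (x.2 - t • y₂).1 ∈ A := by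
        rw [← hy2]
        exact hx2
      exact ⟨(hcov _ ⟨t, ht, h1⟩).1, hmem2 _ t ht h2⟩)
  have hcov2 : ∀ x, (∃ t : ℝ, 0 < t ∧ x - t • y₀ ∈ NEP Λ 𝒥 M Θ A Q) → ∃ g ∈ 𝒢,
      g x ∈ cone (F.image (LinearMap.inl ℝ (N1 Λ 𝒥 M) (fixed Θ Q)) ∪
        T.image (LinearMap.inr ℝ (N1 Λ 𝒥 M) (fixed Θ Q))) := by
    rintro x ⟨t, ht, hx1, hx2⟩
    have h1 : x.1 - t • y₁ ∈ nefCone Λ 𝒥 M := by
      rw [← hy1]
      exact nefEff_nef hx1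
    have h2 : (x.2 - t • y₂).1 ∈ A := by
      rw [← hy2]
      exact hx2
    obtain ⟨-, u, hu, g, hg, hgx⟩ := hcov _ ⟨t, ht, h1⟩
    obtain ⟨z, hz, hzc, τ, hτ, hτx⟩ := hTc _ ⟨t, ht, h2⟩
    exact ⟨g.prodCongr τ, haut u hu g hg z hz hzc τ hτ, cone_pair hgx hτx⟩
  have hmr : (0 : ℝ) < m := by exact_mod_cast hm
  set F₀ : Finset (N1 Λ 𝒥 M × fixed Θ Q) := F.image (LinearMap.inl ℝ (N1 Λ 𝒥 M) (fixed Θ Q)) ∪
    T.image (LinearMap.inr ℝ (N1 Λ 𝒥 M) (fixed Θ Q)) with hF₀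
  have hF₀m : ∀ a ∈ F₀, (a.1 ∈ integral Λ 𝒥 M ∧ a.2.1 ∈ intPts ρ) ∧ a ∈ NEP Λ 𝒥 M Θ A Q := by
    intro a ha
    rcases Finset.mem_union.1 ha with ha | ha
    · obtain ⟨b, hb, rfl⟩ := Finset.mem_image.1 ha
      obtain ⟨h1, h2⟩ := hF b hb
      exact ⟨⟨h1, (intQ Θ Q).zero_mem⟩, nefEff_of_int h1 h2, hA0⟩
    · obtain ⟨b, hb, rfl⟩ := Finset.mem_image.1 ha
      obtain ⟨h1, h2⟩ := hT b hb
      exact ⟨⟨(intL Λ 𝒥 M).zero_mem, h1⟩, hN0, h2⟩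
  have hKs : ∀ (t : ℝ), 0 ≤ t → ∀ x ∈ NEP Λ 𝒥 M Θ A Q, t • x ∈ NEP Λ 𝒥 M Θ A Q :=
    fun t ht x hx => ⟨nefEff_smul ht hx.1, hA.smul t ht _ hx.2⟩
  have D' := cdata_comm D hm (fun x hx => hL1 x hx.1 hx.2) (fun x hx => hL2 x hx)
  obtain ⟨S, hS1, hS2, hS3⟩ := D'.domain 𝒢 hint hnef (F₀.image fun a => (m : ℝ) • a)
    (by
      intro a ha
      obtain ⟨b, hb, rfl⟩ := Finset.mem_image.1 ha
      obtain ⟨h1, h2⟩ := hF₀m b hb
      exact ⟨hL1 b h1.1 h1.2, hKs _ hmr.le _ h2⟩)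
    (by
      rintro x ⟨t, ht, hx⟩
      rw [cone_scale hmr]
      refine hcov2 x ⟨t * m, mul_pos ht hmr, ?_⟩
      rwa [mul_smul])
  have hCp : ∀ x, x ∈ Cp L (NEP Λ 𝒥 M Θ A Q) ↔ x ∈ NEP Λ 𝒥 M Θ A Q := by
    intro x
    constructor
    · rintro ⟨S', hS', hx⟩
      exact cone_ind (p := fun x => x ∈ NEP Λ 𝒥 M Θ A Q) ⟨hN0, hA0⟩
        (fun x y hx hy => ⟨nefEff_add hx.1 hy.1, hA.add _ hx.2 _ hy.2⟩)
        (fun t x ht hx => ⟨nefEff_smul ht hx.1, hA.smul t ht _ hx.2⟩)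
        (fun a ha => (hS' a ha).2) hx
    · rintro ⟨⟨S₁, hS₁, hx1⟩, hx2⟩
      obtain ⟨S₂, hS₂, hx2'⟩ := hTA x.2 hx2
      have h0 := cone_pair hx1 hx2'
      rw [← cone_scale hmr] at h0
      refine ⟨_, ?_, h0⟩
      intro a' ha'
      obtain ⟨a, ha, rfl⟩ := Finset.mem_image.1 ha'
      have h1 : (a.1 ∈ integral Λ 𝒥 M ∧ a.2.1 ∈ intPts ρ) ∧ a ∈ NEP Λ 𝒥 M Θ A Q := by
        rcases Finset.mem_union.1 ha with ha | ha
        · obtain ⟨b, hb, rfl⟩ := Finset.mem_image.1 ha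
          obtain ⟨h3, h4⟩ := hS₁ hb
          exact ⟨⟨h3, (intQ Θ Q).zero_mem⟩, nefEff_of_int h3 h4, hA0⟩
        · obtain ⟨b, hb, rfl⟩ := Finset.mem_image.1 ha
          obtain ⟨h3, h4⟩ := hS₂ b hb
          exact ⟨⟨(intL Λ 𝒥 M).zero_mem, h3⟩, hN0, h4⟩
      exact ⟨hL1 a h1.1.1 h1.1.2, hKs _ hmr.le _ h1.2⟩
  refine ⟨S.image fun a => (m : ℝ) • a, fun a ha => ?_, ?_, ?_⟩
  · obtain ⟨b, hb, rfl⟩ := Finset.mem_image.1 ha
    exact hL2 b (hS1 b hb).1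
  · rw [cone_scale hmr]
    exact fun x hx => (hCp x).1 ⟨S, hS1, hx⟩
  rw [cone_scale hmr]
  refine ⟨?_, ?_⟩
  · ext x
    rw [← hCp, hS2]
    simp only [Set.mem_iUnion, Set.mem_image, exists_prop]
    constructor
    · rintro ⟨g, hg, hgx⟩
      exact ⟨g⁻¹, 𝒢.inv_mem hg, g x, hgx, g.symm_apply_apply x⟩
    · rintro ⟨g, hg, y, hy, rfl⟩
      refine ⟨g⁻¹, 𝒢.inv_mem hg, ?_⟩
      have : (g⁻¹ : (N1 Λ 𝒥 M × fixed Θ Q) ≃ₗ[ℝ] (N1 Λ 𝒥 M × fixed Θ Q)) (g y) = y := g.symm_apply_apply y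
      rwa [this]
  · intro g hg hg1
    obtain ⟨φ, hφ0, hφ1, hφ2⟩ := hS3 g hg hg1
    rw [Set.eq_empty_iff_forall_notMem]
    rintro _ ⟨hx, y, hy, rfl⟩
    have h1 := hφ2 y hy
    obtain ⟨w, hw⟩ : ∃ w, 0 < φ w := by
      by_contra hcon
      push Not at hcon
      apply hφ0
      refine LinearMap.ext fun w => ?_
      have e1 := hcon w
      have e2 := hcon (-w)
      rw [map_neg] at e2
      change φ w = 0
      linarith
    have hcont : Continuous fun t : ℝ => g y - t • w := by fun_prop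
    have hmem : ∀ᶠ t : ℝ in 𝓝 0, g y - t • w ∈ interior (cone S) := by
      apply hcont.continuousAt.eventually_mem
      rw [zero_smul, sub_zero]
      exact isOpen_interior.mem_nhds hx
    obtain ⟨ε, hε, hball⟩ := Metric.eventually_nhds_iff.1 hmem
    have h2 := interior_subset (hball (y := ε / 2) (by
      rw [Real.dist_eq, sub_zero, abs_of_pos (by linarith)]
      linarith))
    have h3 := hφ1 _ h2
    rw [map_sub, map_smul, smul_eq_mul] at h3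
    have h4 : 0 < ε / 2 * φ w := by positivity
    linarith

/-- **The nef cone conjecture for fibre products with families of abelian varieties.** -/
theorem main (h : IsFamily Λ 𝒥 M) {k : ℕ} (hk : 0 < k) {G : Type*} [Group G] {Θ : Action G ρ}
    {A : Set (Fin ρ → ℝ)} {H Q : Subgroup G} (hA : IsFactor Θ A H Q)
    (𝒢 : LinGrp (N1X Λ 𝒥 M Θ Q)) (h𝒢 : IsAutGroup A H k 𝒢) : HasDomain A 𝒢 := by
  obtain ⟨m, L, hm, hL1, hL2, hL⟩ := h𝒢.int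
  obtain ⟨S, h1, h2, h3⟩ := main₀ h hk hA (𝒢 : LinGrp (N1 Λ 𝒥 M × fixed Θ Q)) hm
    (L : AddSubgroup (N1 Λ 𝒥 M × fixed Θ Q)) (fun x h1 h2 => hL1 x ⟨h1, h2⟩)
    (fun x hx => hL2 x hx) (fun g hg x hx => hL g hg x hx) (fun g hg x hx => h𝒢.nef_eff g hg x hx)
    (fun u hu g hg z hz hzc τ hτ => h𝒢.aut u hu z hz hzc (g.prodCongr τ)
      fun x => ⟨fun v w => hg x.1 v w, hτ x.2⟩)
  exact ⟨S, fun a ha => h1 a ha, h2, h3⟩

end Pool.Agent.W4h4.AS
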