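import Pool.Agent.W4h4.AS.Alg
import Pool.Agent.Y167.Dom

/-!
# Reduction theory for the classes on a polarised family
-/

set_option autoImplicit false

namespace Pool.Agent.W4h4.AS

open Finset
open Pool.Agent.Y167 (Sys cone)

variable {V : Type*} [AddCommGroup V] [Module ℝ V]

section N1

variable {Λ : AddSubgroup V} {𝒥 M : Set (Module.End ℝ V)}

theorem form_add (x y : N1 Λ 𝒥 M) (v w : V) : form (x + y) v w = form x v w + form y v w := rfl

theorem form_smul (c : ℝ) (x : N1 Λ 𝒥 M) (v w : V) : form (c • x) v w = c * form x v w := rfl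

theorem form_zero (v w : V) : form (0 : N1 Λ 𝒥 M) v w = 0 := rfl

theorem form_sub (x y : N1 Λ 𝒥 M) (v w : V) : form (x - y) v w = form x v w - form y v w := rfl

theorem form_neg (x : N1 Λ 𝒥 M) (v w : V) : form (-x) v w = -form x v w := rfl

theorem form_ext {x y : N1 Λ 𝒥 M} (h : ∀ v w, form x v w = form y v w) : x = y :=
  Subtype.ext (funext fun v => funext fun w => h v w)

theorem form_sum {ι : Type*} (s : Finset ι) (f : ι → N1 Λ 𝒥 M) (v w : V) :
    form (∑ i ∈ s, f i) v w = ∑ i ∈ s, form (f i) v w := by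
  classical
  induction s using Finset.induction_on with
  | empty => rfl
  | insert i s hi ih => rw [Finset.sum_insert hi, Finset.sum_insert hi, form_add, ih]

theorem exists_of_form {E : V → V → ℝ} (hE : IsForm Λ 𝒥 M E) : ∃ x : N1 Λ 𝒥 M, form x = E :=
  ⟨⟨E, Submodule.subset_span hE⟩, rfl⟩

/-- Real classes are forms for the zero lattice. -/
theorem isForm_form (x : N1 Λ 𝒥 M) : IsForm ⊥ 𝒥 M (form x) := by
  have h : ∀ E ∈ N1s Λ 𝒥 M, IsForm ⊥ 𝒥 M E := by
    intro E hE
    induction hE using Submodule.span_induction with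
    | mem E hE =>
      refine ⟨hE.add, hE.smul, hE.alt, fun x hx y _ => ⟨0, ?_⟩, hE.type, hE.inv⟩
      rw [AddSubgroup.mem_bot] at hx
      rw [hx, hE.zero_left, Int.cast_zero]
    | zero =>
      exact ⟨fun _ _ _ => by simp, fun _ _ _ => by simp, fun _ _ => by simp,
        fun _ _ _ _ => ⟨0, by simp⟩, fun _ _ _ _ => by simp, fun _ _ _ _ => by simp⟩
    | add E E' _ _ h1 h2 =>
      refine ⟨fun x y z => ?_, fun c x y => ?_, fun x y => ?_, fun x hx y hy => ⟨0, ?_⟩,
        fun J hJ x y => ?_, fun g hg x y => ?_⟩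
      · change E (x + y) z + E' (x + y) z = E x z + E' x z + (E y z + E' y z)
        rw [h1.add, h2.add]
        ring
      · change E (c • x) y + E' (c • x) y = c * (E x y + E' x y)
        rw [h1.smul, h2.smul]
        ring
      · change E y x + E' y x = -(E x y + E' x y)
        rw [h1.alt x y, h2.alt x y]
        ring
      · rw [AddSubgroup.mem_bot] at hx
        change E x y + E' x y = _
        rw [hx, h1.zero_left, h2.zero_left, Int.cast_zero, add_zero]
      · change E (J x) (J y) + E' (J x) (J y) = E x y + E' x y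
        rw [h1.type J hJ, h2.type J hJ]
      · change E (g x) (g y) + E' (g x) (g y) = E x y + E' x y
        rw [h1.inv g hg, h2.inv g hg]
    | smul c E _ h1 =>
      refine ⟨fun x y z => ?_, fun c' x y => ?_, fun x y => ?_, fun x hx y hy => ⟨0, ?_⟩,
        fun J hJ x y => ?_, fun g hg x y => ?_⟩
      · change c * E (x + y) z = c * E x z + c * E y z
        rw [h1.add]
        ring
      · change c * E (c' • x) y = c' * (c * E x y)
        rw [h1.smul]
        ring
      · change c * E y x = -(c * E x y)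
        rw [h1.alt x y]
        ring
      · rw [AddSubgroup.mem_bot] at hx
        change c * E x y = _
        rw [hx, h1.zero_left, Int.cast_zero, mul_zero]
      · change c * E (J x) (J y) = c * E x y
        rw [h1.type J hJ]
      · change c * E (g x) (g y) = c * E x y
        rw [h1.inv g hg]
  exact h x.1 x.2

theorem nef_add {x y : N1 Λ 𝒥 M} (hx : x ∈ nefCone Λ 𝒥 M) (hy : y ∈ nefCone Λ 𝒥 M) :
    x + y ∈ nefCone Λ 𝒥 M := fun J hJ v => by
  rw [form_add]
  exact add_nonneg (hx J hJ v) (hy J hJ v)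

theorem nef_smul {x : N1 Λ 𝒥 M} {t : ℝ} (ht : 0 ≤ t) (hx : x ∈ nefCone Λ 𝒥 M) :
    t • x ∈ nefCone Λ 𝒥 M := fun J hJ v => by
  rw [form_smul]
  exact mul_nonneg ht (hx J hJ v)

/-- The integral classes form a group. -/
def intL (Λ : AddSubgroup V) (𝒥 M : Set (Module.End ℝ V)) : AddSubgroup (N1 Λ 𝒥 M) where
  carrier := integral Λ 𝒥 M
  add_mem' := by
    intro x y hx hy
    have hx' : IsForm Λ 𝒥 M (form x) := hx
    have hy' : IsForm Λ 𝒥 M (form y) := hy
    refine ⟨(isForm_form (x + y)).add, (isForm_form (x + y)).smul, (isForm_form (x + y)).alt,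
      fun v hv w hw => ?_, (isForm_form (x + y)).type, (isForm_form (x + y)).inv⟩
    obtain ⟨m, hm⟩ := hx'.int v hv w hw
    obtain ⟨n, hn⟩ := hy'.int v hv w hw
    exact ⟨m + n, by rw [form_add, hm, hn]; push_cast; rfl⟩
  zero_mem' := by
    refine ⟨(isForm_form 0).add, (isForm_form 0).smul, (isForm_form 0).alt,
      fun v hv w hw => ⟨0, ?_⟩, (isForm_form 0).type, (isForm_form 0).inv⟩
    rw [form_zero, Int.cast_zero]
  neg_mem' := by
    intro x hx
    have hx' : IsForm Λ 𝒥 M (form x) := hx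
    refine ⟨(isForm_form (-x)).add, (isForm_form (-x)).smul, (isForm_form (-x)).alt,
      fun v hv w hw => ?_, (isForm_form (-x)).type, (isForm_form (-x)).inv⟩
    obtain ⟨m, hm⟩ := hx'.int v hv w hw
    exact ⟨-m, by rw [form_neg, hm]; push_cast; rfl⟩

theorem mem_intL {x : N1 Λ 𝒥 M} : x ∈ intL Λ 𝒥 M ↔ x ∈ integral Λ 𝒥 M := Iff.rfl

theorem span_intL : Submodule.span ℝ (intL Λ 𝒥 M : Set (N1 Λ 𝒥 M)) = ⊤ := by
  rw [eq_top_iff]
  rintro ⟨x, hx⟩ -
  have h1 : ∀ x, ∀ _ : x ∈ N1s Λ 𝒥 M, ∀ hx' : x ∈ N1s Λ 𝒥 M,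
      (⟨x, hx'⟩ : N1 Λ 𝒥 M) ∈ Submodule.span ℝ (intL Λ 𝒥 M : Set (N1 Λ 𝒥 M)) := by
    intro x hx
    induction hx using Submodule.span_induction with
    | mem x hx => exact fun hx' => Submodule.subset_span hx
    | zero => exact fun hx' => Submodule.zero_mem _
    | add x y hx hy h1 h2 =>
      intro hx'
      exact Submodule.add_mem _ (h1 hx) (h2 hy)
    | smul c x hx h1 =>
      intro hx'
      exact Submodule.smul_mem _ c (h1 hx)
  exact h1 x hx hx

end N1

namespace RPol

variable {ω : V → V → ℝ} {Λ : AddSubgroup V} {𝒥 M : Set (Module.End ℝ V)} {d : ℕ}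
  {b : Module.Basis (Fin d) ℝ V}

/-- The operator of a class. -/
theorem exists_opN (P : RPol ω Λ 𝒥 M d b) :
    ∃ op : N1 Λ 𝒥 M →ₗ[ℝ] P.alg, (∀ x u w, form x u w = ω u ((op x).1 w)) ∧
      (∀ x, P.st (op x) = op x) ∧ Function.Injective op := by
  have h1 : ∀ x : N1 Λ 𝒥 M, ∃ a : P.alg, P.st a = a ∧ ∀ u w, form x u w = ω u (a.1 w) := by
    rintro ⟨x, hx⟩
    change ∃ a : P.alg, P.st a = a ∧ ∀ u w, x u w = ω u (a.1 w)
    obtain ⟨N, hN, hNo⟩ := P.ord_of_form
    induction hx using Submodule.span_induction with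
    | mem z hz =>
      obtain ⟨a, ha⟩ := P.exists_op hz
      have h1 : a ∈ P.alg := by
        have h2 : a = (N : ℝ)⁻¹ • ((N : ℝ) • a) := by
          rw [smul_smul, inv_mul_cancel₀ (by exact_mod_cast hN.ne'), one_smul]
        rw [h2]
        exact P.alg.smul_mem (P.ord_le (hNo a z hz ha)) _
      refine ⟨⟨a, h1⟩, Subtype.ext ?_, ha⟩
      refine P.adj_unique fun u w => ?_
      change ω (a u) w = ω u (a w)
      have hz' : IsForm Λ 𝒥 M z := hz
      rw [P.frm.alt w (a u), ← ha, ← ha, hz'.alt w u]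
    | zero =>
      refine ⟨0, map_zero _, fun u w => ?_⟩
      change 0 = ω u 0
      rw [P.frm.zero_right]
    | add x y _ _ hx hy =>
      obtain ⟨a, ha1, ha2⟩ := hx
      obtain ⟨c, hc1, hc2⟩ := hy
      refine ⟨a + c, by rw [map_add, ha1, hc1], fun u w => ?_⟩
      change x u w + y u w = ω u (a.1 w + c.1 w)
      rw [P.frm.add_right, ha2, hc2]
    | smul c x _ hx =>
      obtain ⟨a, ha1, ha2⟩ := hx
      refine ⟨c • a, by rw [map_smul, ha1], fun u w => ?_⟩
      change c • (x u w) = ω u (c • (a.1 w))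
      rw [P.frm.smul_right, ha2, smul_eq_mul]
  choose f hf1 hf2 using h1
  have hun : ∀ a a' : P.alg, (∀ u w, ω u (a.1 w) = ω u (a'.1 w)) → a = a' := by
    intro a a' h
    apply Subtype.ext
    ext w
    exact P.ext_right fun u => h u w
  refine ⟨{ toFun := f
            map_add' := fun x y => hun _ _ fun u w => ?_
            map_smul' := fun c x => hun _ _ fun u w => ?_ }, hf2, hf1, ?_⟩
  · rw [← hf2, form_add]
    change form x u w + form y u w = ω u ((f x).1 w + (f y).1 w)
    rw [P.frm.add_right, ← hf2, ← hf2]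
  · rw [← hf2, form_smul]
    change c * form x u w = ω u (c • (f x).1 w)
    rw [P.frm.smul_right, ← hf2]
  · intro x y hxy
    refine form_ext fun u w => ?_
    rw [hf2, hf2]
    have h3 : f x = f y := hxy
    rw [h3]

/-- **Reduction theory for the classes.** -/
theorem red (P : RPol ω Λ 𝒥 M d b) :
    ∃ F : Finset (N1 Λ 𝒥 M), (∀ z ∈ F, z ∈ integral Λ 𝒥 M ∧ z ∈ nefCone Λ 𝒥 M) ∧
      ∀ x : N1 Λ 𝒥 M,
        (∃ t : ℝ, 0 < t ∧ ∀ J ∈ 𝒥, ∀ v, t * ω v (J v) ≤ form x v (J v)) →
        ∃ u : V ≃ₗ[ℝ] V, (∀ x ∈ Λ, u x ∈ Λ) ∧ (∀ x ∈ Λ, u.symm x ∈ Λ) ∧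
          (∀ g ∈ 𝒥 ∪ M, ∀ x, u (g x) = g (u x)) ∧
          ∃ c : N1 Λ 𝒥 M → ℝ, (∀ z, 0 ≤ c z) ∧
            ∀ v w, form x v w = ∑ z ∈ F, c z * form z (u v) (u w) := by
  classical
  obtain ⟨J₀, hJ₀⟩ := P.ne
  obtain ⟨r, S, hS1, hS2, hS3⟩ := P.exists_S hJ₀
  obtain ⟨op, hop, hopst, -⟩ := P.exists_opN
  rcases Nat.eq_zero_or_pos r with hr | hr
  · -- `V = 0`
    have h1 : (1 : P.alg) = 0 := by
      apply S.vec.injective
      subst hr
      exact Subsingleton.elim _ _
    have h2 : ∀ v : V, v = 0 := by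
      intro v
      have h3 : (1 : P.alg).1 v = (0 : P.alg).1 v := by rw [h1]
      exact h3
    refine ⟨∅, by simp, fun x _ => ⟨LinearEquiv.refl ℝ V, fun x hx => hx, fun x hx => hx,
      fun g _ x => rfl, fun _ => 0, fun _ => le_rfl, fun v w => ?_⟩⟩
    rw [hop, h2 v, P.frm.zero_left]
    simp
  obtain ⟨F, hF, hFp, hFc⟩ := S.reduction hr
  obtain ⟨m, hm, hmv⟩ := S.int_denom
  have hmr : (0 : ℝ) < m := by exact_mod_cast hm
  have hz : ∀ f : P.alg, f ∈ F → ∃ z : N1 Λ 𝒥 M, z ∈ integral Λ 𝒥 M ∧ z ∈ nefCone Λ 𝒥 M ∧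
      ∀ v w, form z v w = m * ω v (f.1 w) := by
    intro f hf
    obtain ⟨h1, h2⟩ := hFp f hf
    have hsa : P.adj f.1 = f.1 := by
      have h3 := h1.sa
      rw [hS1] at h3
      exact congrArg Subtype.val h3
    have hmem := hmv f h2
    rw [hS2, P.mem_R] at hmem
    have hE : IsForm Λ 𝒥 M (fun v w => m * ω v (f.1 w)) := by
      refine ⟨fun x y z => ?_, fun c x y => ?_, fun x y => ?_, fun x hx y hy => ?_,
        fun J hJ x y => ?_, fun g hg x y => ?_⟩
      · rw [P.frm.add]
        ring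
      · rw [P.frm.smul]
        ring
      · rw [P.frm.alt (f.1 x) y, P.adj_spec, hsa]
        ring
      · have h3 := P.frm.int x hx _ (hmem.2 y hy)
        have h4 : ω x (((m : ℝ) • f : P.alg).1 y) = m * ω x (f.1 y) := by
          change ω x ((m : ℝ) • (f.1 y)) = _
          rw [P.frm.smul_right]
        rw [← h4]
        exact h3
      · rw [P.comm_J f.2 hJ, P.frm.type J hJ]
      · have h3 : f.1 (g y) = g (f.1 y) := LinearMap.congr_fun (P.alg_comm f.2 (Or.inr hg)) y
        rw [h3, P.frm.inv g hg]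
    obtain ⟨z, hzE⟩ := exists_of_form hE
    refine ⟨z, ?_, fun J hJ v => ?_, fun v w => by rw [hzE]⟩
    · change IsForm Λ 𝒥 M (form z)
      rw [hzE]
      exact hE
    · rw [hzE]
      dsimp only
      rw [P.comm_J f.2 hJ]
      exact mul_nonneg hmr.le (P.of_psd hS1 h1 hJ v)
  choose! zf hzf1 hzf2 hzf3 using hz
  refine ⟨hF.toFinset.image zf, ?_, ?_⟩
  · intro z hz
    obtain ⟨f, hf, rfl⟩ := Finset.mem_image.1 hz
    rw [hF.mem_toFinset] at hf
    exact ⟨hzf1 f hf, hzf2 f hf⟩
  · rintro x ⟨t, ht, htx⟩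
    have hpd : S.Pd (op x) := by
      have h1 : S.Psd (op x - t • 1) := by
        apply P.psd_of hJ₀ hS1 hS3
        · rw [map_sub, map_smul, hopst]
          congr 2
          have := S.st_one
          rwa [hS1] at this
        · intro u
          have h2 := htx J₀ hJ₀ u
          rw [hop, P.comm_J (op x).2 hJ₀] at h2
          change 0 ≤ ω u (J₀ ((op x).1 u - t • u))
          have h3 : J₀ ((op x).1 u - t • u) = J₀ ((op x).1 u) + (-t) • J₀ u := by
            rw [map_sub, map_smul, neg_smul, sub_eq_add_neg]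
          rw [h3, P.frm.add_right, P.frm.smul_right]
          linarith
      have h2 : S.Pd (t • (1 : P.alg)) := by
        rw [Sys.pd_iff']
        refine ⟨by rw [map_smul, S.st_one], fun x hx => ?_⟩
        rw [mul_smul_comm, smul_mul_assoc, map_smul, mul_one, smul_eq_mul]
        exact mul_pos ht (Sys.tr_st_mul_pos hx)
      have h3 := h2.add_psd h1
      rwa [add_sub_cancel] at h3
    obtain ⟨u, hu, v, hv, huv, hvu, k, z, c, hz, hc, hx⟩ := hFc (op x) hpd
    rw [hS2, P.mem_R] at hu hv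
    have huv' : ∀ x, u.1 (v.1 x) = x := fun x => by
      have h1 : (u * v).1 x = (1 : P.alg).1 x := by rw [huv]
      exact h1
    have hvu' : ∀ x, v.1 (u.1 x) = x := fun x => by
      have h1 : (v * u).1 x = (1 : P.alg).1 x := by rw [hvu]
      exact h1
    let e : V ≃ₗ[ℝ] V := { u.1 with
      invFun := v.1
      left_inv := hvu'
      right_inv := huv' }
    have he : ∀ x, e x = u.1 x := fun x => rfl
    refine ⟨e, fun x hx => hu.2 x hx, fun x hx => hv.2 x hx,
      fun g hg x => LinearMap.congr_fun (P.alg_comm u.2 hg) x,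
      fun y => ∑ i ∈ Finset.univ.filter (fun i => zf (z i) = y), c i / m,
      fun y => Finset.sum_nonneg fun i _ => div_nonneg (hc i) hmr.le, fun v' w => ?_⟩
    have h1 : form x v' w = ∑ i, c i * ω (u.1 v') ((z i).1 (u.1 w)) := by
      rw [hop, hx, hS1]
      change ω v' (P.adj u.1 ((∑ i, c i • z i : P.alg).1 (u.1 w))) = _
      rw [← P.adj_spec]
      have h2 : (∑ i, c i • z i : P.alg).1 (u.1 w) = ∑ i, c i • (z i).1 (u.1 w) := by
        have h3 : (∑ i, c i • z i : P.alg).1 = ∑ i, c i • (z i).1 := by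
          have := map_sum (P.alg.val : P.alg →ₐ[ℝ] Module.End ℝ V) (fun i => c i • z i) Finset.univ
          exact this
        rw [h3, LinearMap.sum_apply]
        rfl
      rw [h2]
      have h4 : ω (u.1 v') (∑ i, c i • (z i).1 (u.1 w))
          = P.frm.toL (u.1 v') (∑ i, c i • (z i).1 (u.1 w)) := rfl
      rw [h4, map_sum]
      refine Finset.sum_congr rfl fun i _ => ?_
      rw [map_smul, smul_eq_mul]
      rfl
    rw [h1]
    have h5 : ∀ i : Fin k, zf (z i) ∈ hF.toFinset.image zf := fun i =>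
      Finset.mem_image_of_mem _ (hF.mem_toFinset.2 (hz i))
    rw [← Finset.sum_fiberwise_of_maps_to (g := fun i => zf (z i)) (fun i _ => h5 i)]
    refine Finset.sum_congr rfl fun y _ => ?_
    rw [Finset.sum_mul]
    refine Finset.sum_congr rfl fun i hi => ?_
    rw [← (Finset.mem_filter.1 hi).2, hzf3 _ (hz i), he, he]
    field_simp

end RPol

end Pool.Agent.W4h4.AS
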